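import Mathlib

/-!
The homeomorphism statement inside an arbitrary epsilon-structure `(M, E)`, where `E x y` means
that `x` is an element of `y`.
-/

set_option autoImplicit false

namespace Pool.Agent.H.MP_8ff4bd_gt.M3.Plain

universe u

variable {M : Type u} (E : M → M → Prop)

/-- `x ⊆ y` -/
def IsSub (x y : M) : Prop := ∀ z, E z x → E z y

/-- `x = ∅` -/
def IsEmp (x : M) : Prop := ∀ z, ¬ E z x

/-- `z = {x}` -/
def IsSing (z x : M) : Prop := ∀ w, E w z ↔ w = x

/-- `z = {x, y}` -/
def IsPair (z x y : M) : Prop := ∀ w, E w z ↔ w = x ∨ w = y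

/-- `z = (x, y) = {{x}, {x, y}}` -/
def IsOPair (z x y : M) : Prop := ∃ a b, IsSing E a x ∧ IsPair E b x y ∧ IsPair E z a b

/-- `(x, y) ∈ f` -/
def InRel (f x y : M) : Prop := ∃ p, E p f ∧ IsOPair E p x y

/-- `z = y ∪ {t}` -/
def IsInsert (z y t : M) : Prop := ∀ w, E w z ↔ E w y ∨ w = t

/-- `x` is finite: it belongs to every family containing `∅` and closed under adjoining elements of
`x` -/
def IsFin (x : M) : Prop :=
  ∀ s, (∃ e, E e s ∧ IsEmp E e) → (∀ y t, E y s → E t x → ∃ z, E z s ∧ IsInsert E z y t) → E x s

/-- `s` contains `∅` and is closed under `n ↦ n ∪ {n}` -/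
def IsInductive (s : M) : Prop :=
  (∃ e, E e s ∧ IsEmp E e) ∧ ∀ n, E n s → ∃ m, E m s ∧ IsInsert E m n n

/-- `o = ω` -/
def IsOmega (o : M) : Prop := IsInductive E o ∧ ∀ s, IsInductive E s → IsSub E o s

/-- `x` is countable: there is a relation `r` between `x` and `ω` which is total on `x` and
injective -/
def IsCtbl (x : M) : Prop :=
  ∃ o r, IsOmega E o ∧ (∀ t, E t x → ∃ n, E n o ∧ InRel E r t n) ∧
    ∀ t t' n, E t x → E t' x → E n o → InRel E r t n → InRel E r t' n → t = t'

/-- `x` is transitive -/
def IsTransitive (x : M) : Prop := ∀ y, E y x → IsSub E y x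

/-- `x` is an ordinal -/
def IsOrd (x : M) : Prop := IsTransitive E x ∧ ∀ y, E y x → IsTransitive E y

/-- `w` is the set of all countable ordinals (that is, `w = ω₁`) -/
def IsW (w : M) : Prop := ∀ x, E x w ↔ IsOrd E x ∧ IsCtbl E x

/-- `x` is the von Neumann numeral `n` -/
def IsNum : ℕ → M → Prop
  | 0, x => IsEmp E x
  | n + 1, x => ∃ y, IsNum n y ∧ IsInsert E x y y

/-- `x` is a von Neumann numeral smaller than `m` -/
def IsLess (m : ℕ) (x : M) : Prop := ∃ i : Fin m, IsNum E i x

/-- the value of the function `x` at `t` is the numeral `i` -/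
def Val (x t : M) (i : ℕ) : Prop := ∃ n, IsNum E i n ∧ InRel E x t n

/-- `x` is a function from `w` to the numeral `m` -/
def IsFun (m : ℕ) (w x : M) : Prop :=
  (∀ p, E p x → ∃ t n, E t w ∧ IsLess E m n ∧ IsOPair E p t n) ∧
  (∀ t, E t w → ∃ n, InRel E x t n) ∧
  (∀ t n n', InRel E x t n → InRel E x t n' → n = n')

/-- the function `x` has finite support -/
def IsFinSupp (w x : M) : Prop := ∃ s, IsFin E s ∧ ∀ t, E t w → ¬ Val E x t 0 → E t s

/-- `g` is the set of all finitely supported functions from `w` to `m` (the underlying set of the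
direct sum of `w` copies of the cyclic group of order `m`) -/
def IsGrp (m : ℕ) (w g : M) : Prop := ∀ x, E x g ↔ IsFun E m w x ∧ IsFinSupp E w x

/-- `z = x + y` (pointwise addition modulo `m` on `w`) -/
def IsSum (m : ℕ) (w x y z : M) : Prop :=
  ∀ t, E t w → ∃ i j : Fin m, Val E x t i ∧ Val E y t j ∧ Val E z t ((i + j : ℕ) % m)

/-- `l` is a subgroup of the group `k` of exponent `m`: a subset which contains zero and is closed
under addition -/
def IsSubgrp (m : ℕ) (w k l : M) : Prop :=
  IsSub E l k ∧ (∀ o, E o k → IsSum E m w o o o → E o l) ∧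
    ∀ x y z, E x l → E y l → E z k → IsSum E m w x y z → E z l

/-- the subgroup `l` has countable index in `k`: there is a relation `r` between `k` and `ω` which
is total on `k` and such that elements of `k` related to the same natural number differ by an
element of `l` -/
def IsCIdx (m : ℕ) (w k l : M) : Prop :=
  ∃ o r, IsOmega E o ∧ (∀ x, E x k → ∃ n, E n o ∧ InRel E r x n) ∧
    ∀ x y n, E x k → E y k → E n o → InRel E r x n → InRel E r y n →
      ∃ z, E z l ∧ IsSum E m w y z x

/-- `f` is a bijection between `g` and `h` -/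
def IsBij (g h f : M) : Prop :=
  (∀ x, E x g → ∃ y, E y h ∧ InRel E f x y) ∧
  (∀ x y y', E x g → E y h → E y' h → InRel E f x y → InRel E f x y' → y = y') ∧
  (∀ y, E y h → ∃ x, E x g ∧ InRel E f x y) ∧
  (∀ y x x', E y h → E x g → E x' g → InRel E f x y → InRel E f x' y → x = x')

/-- the relation `f` (flag `false`) or its converse (flag `true`) -/
def GraphOf : Bool → M → M → M → Prop
  | false, f, x, y => InRel E f x y
  | true, f, x, y => InRel E f y x

/-- `f` (flag `false`) or its converse (flag `true`) is a continuous map from the group `g` (with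
addition modulo `m`) to the group `h` (with addition modulo `m'`) in the pro-countable topologies:
if `f x = y`, then for every subgroup `l` of `h` of countable index there is a subgroup `k` of `g`
of countable index such that `f` maps `x + k` into `y + l` -/
def IsCont (sw : Bool) (m m' : ℕ) (w g h f : M) : Prop :=
  ∀ x y, E x g → E y h → GraphOf E sw f x y →
    ∀ l, IsSubgrp E m' w h l → IsCIdx E m' w h l →
      ∃ k, IsSubgrp E m w g k ∧ IsCIdx E m w g k ∧
        ∀ z u v, E z k → E u g → E v h → IsSum E m w x z u → GraphOf E sw f u v →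
          ∃ t, E t l ∧ IsSum E m' w y t v

/-- The homeomorphism statement in `(M, E)`: there are the set `w` of all countable ordinals, the
sets `g` and `h` of all finitely supported functions from `w` to `2` and to `3`, and a bijection `f`
from `g` to `h` which is continuous in both directions for the pro-countable topologies. -/
def Homeomorphic : Prop :=
  ∃ w g h f, IsW E w ∧ IsGrp E 2 w g ∧ IsGrp E 3 w h ∧ IsBij E g h f ∧
    IsCont E false 2 3 w g h f ∧ IsCont E true 3 2 w h g f

end Pool.Agent.H.MP_8ff4bd_gt.M3.Plain
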