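import Pool.Agent.H.MP_8ff4bd_gt.M3.S.SentenceB
import Pool.Agent.H.MP_8ff4bd_gt.M3.S.Plain

/-!
The plain form of the homeomorphism sentence.
-/

set_option autoImplicit false

namespace Pool.Agent.H.MP_8ff4bd_gt.M3

open FirstOrder
open scoped symmDiff

universe u v w

/-- An epsilon-structure as a two-valued structure. -/
def relStr {M : Type u} (E : M → M → Prop) : BStr Prop M where
  mem := E
  eq := Eq
  eq_refl := fun _ => eq_true rfl
  eq_symm := fun _ _ => propext eq_comm
  eq_trans := fun _ _ _ h => h.1.trans h.2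
  mem_congr_left := fun _ _ _ h => h.1 ▸ h.2
  mem_congr_right := fun _ _ _ h => h.1 ▸ h.2

theorem relStr_mem {M : Type u} (E : M → M → Prop) (x y : M) : (relStr E).mem x y = E x y := rfl

theorem relStr_eq {M : Type u} (E : M → M → Prop) (x y : M) : (relStr E).eq x y = (x = y) := rfl

theorem realize_iff_bval {M : Type u} (E : M → M → Prop) {α : Type w} {n : ℕ}
    (φ : LSet.BoundedFormula α n) (v : α → M) (xs : Fin n → M) :
    @FirstOrder.Language.BoundedFormula.Realize LSet M (epsStr E) α n φ v xs ↔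
      (relStr E).bval φ v xs := by
  let _ := epsStr E
  induction φ with
  | falsum => exact Iff.rfl
  | equal t₁ t₂ =>
    change (@FirstOrder.Language.Term.realize LSet _ _ _ _ t₁ =
      @FirstOrder.Language.Term.realize LSet _ _ _ _ t₂) ↔ _
    rw [BStr.realize_tval, BStr.realize_tval]
    rfl
  | rel R ts =>
    cases R with
    | mem =>
      change E (@FirstOrder.Language.Term.realize LSet _ _ _ _ (ts 0))
        (@FirstOrder.Language.Term.realize LSet _ _ _ _ (ts 1)) ↔ _
      rw [BStr.realize_tval, BStr.realize_tval]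
      rfl
  | imp f g hf hg => exact imp_congr (hf _) (hg _)
  | all f hf =>
    have h1 : (relStr E).bval f.all v xs ↔ ∀ x, (relStr E).bval f v (Fin.snoc xs x) := by
      change (⨅ x, (relStr E).bval f v (Fin.snoc xs x)) ↔ _
      rw [iInf_Prop_eq]
    rw [h1]
    exact forall_congr' fun x => hf (Fin.snoc xs x)

theorem sat_iff_bval {M : Type u} (E : M → M → Prop) (φ : LSet.Sentence) :
    Sat E φ ↔ (relStr E).bval φ default default := realize_iff_bval E φ _ _

section plain

open Plain

variable {M : Type u} (E : M → M → Prop)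

theorem rel_sub (x y : M) : (relStr E).bSubset x y ↔ IsSub E x y := by
  simp only [BStr.bSubset, IsSub, iInf_Prop_eq, himp_iff_imp, relStr_mem]

theorem rel_emp (x : M) : (relStr E).bEmpty x ↔ IsEmp E x := by
  simp only [BStr.bEmpty, IsEmp, iInf_Prop_eq, compl_iff_not, relStr_mem]

theorem rel_inRel (f x y : M) : (relStr E).bRel f x y ↔ InRel E f x y := by
  simp only [BStr.bRel, BStr.bOPair, BStr.bSing, BStr.bPair, InRel,
      IsOPair, IsSing, IsPair, iInf_Prop_eq, iSup_Prop_eq, inf_Prop_eq, sup_Prop_eq,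
      bihimp_iff_iff, relStr_mem, relStr_eq, and_assoc]

theorem rel_oPair (z x y : M) : (relStr E).bOPair z x y ↔ IsOPair E z x y := by
  simp only [BStr.bOPair, BStr.bSing, BStr.bPair,
      IsOPair, IsSing, IsPair, iInf_Prop_eq, iSup_Prop_eq, inf_Prop_eq, sup_Prop_eq,
      bihimp_iff_iff, relStr_mem, relStr_eq, and_assoc]

theorem rel_insert (z y t : M) : (relStr E).bInsert z y t ↔ IsInsert E z y t := by
  simp only [BStr.bInsert, IsInsert, iInf_Prop_eq, bihimp_iff_iff, sup_Prop_eq, relStr_mem,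
    relStr_eq]

theorem rel_fin (x : M) : (relStr E).bFin x ↔ IsFin E x := by
  simp only [BStr.bFin, IsFin, iInf_Prop_eq, iSup_Prop_eq, inf_Prop_eq, himp_iff_imp, relStr_mem,
    rel_emp, rel_insert, and_imp]

theorem rel_inductive (x : M) : (relStr E).bInductive x ↔ IsInductive E x := by
  simp only [BStr.bInductive, IsInductive, iInf_Prop_eq, iSup_Prop_eq, inf_Prop_eq, himp_iff_imp,
    relStr_mem, rel_emp, rel_insert]

theorem rel_omega (x : M) : (relStr E).bOmega x ↔ IsOmega E x := by
  simp only [BStr.bOmega, IsOmega, iInf_Prop_eq, inf_Prop_eq, himp_iff_imp,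
    rel_inductive, rel_sub]

theorem rel_ctbl (x : M) : (relStr E).bCtbl x ↔ IsCtbl E x := by
  simp only [BStr.bCtbl, IsCtbl, iInf_Prop_eq, iSup_Prop_eq, inf_Prop_eq, himp_iff_imp,
    relStr_mem, relStr_eq, rel_omega, rel_inRel, and_imp, and_assoc]

theorem rel_trans (x : M) : (relStr E).bTrans x ↔ IsTransitive E x := by
  simp only [BStr.bTrans, IsTransitive, iInf_Prop_eq, himp_iff_imp, relStr_mem, rel_sub]

theorem rel_ord (x : M) : (relStr E).bOrd x ↔ IsOrd E x := by
  simp only [BStr.bOrd, IsOrd, iInf_Prop_eq, inf_Prop_eq, himp_iff_imp, relStr_mem, rel_trans]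

theorem rel_isW (x : M) : (relStr E).bIsW x ↔ IsW E x := by
  simp only [BStr.bIsW, IsW, iInf_Prop_eq, inf_Prop_eq, bihimp_iff_iff, relStr_mem, rel_ord,
    rel_ctbl]

theorem rel_num (k : ℕ) (x : M) : (relStr E).bNum k x ↔ IsNum E k x := by
  induction k generalizing x with
  | zero => simp only [BStr.bNum, IsNum, rel_emp]
  | succ k ih => simp only [BStr.bNum, IsNum, iSup_Prop_eq, inf_Prop_eq, ih, rel_insert]

theorem rel_less (m : ℕ) (x : M) : (relStr E).bLess m x ↔ IsLess E m x := by
  simp only [BStr.bLess, IsLess, iSup_Prop_eq, rel_num]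

theorem rel_val (x t : M) (i : ℕ) : (relStr E).bVal x t i ↔ Val E x t i := by
  simp only [BStr.bVal, Val, iSup_Prop_eq, inf_Prop_eq, rel_num, rel_inRel]

theorem rel_fun (m : ℕ) (w x : M) : (relStr E).bFun m w x ↔ IsFun E m w x := by
  simp only [BStr.bFun, IsFun, iInf_Prop_eq, iSup_Prop_eq, inf_Prop_eq, himp_iff_imp, relStr_mem,
    relStr_eq, rel_less, rel_oPair, rel_inRel, and_assoc, and_imp]

theorem rel_finSupp (w x : M) : (relStr E).bFinSupp w x ↔ IsFinSupp E w x := by
  simp only [BStr.bFinSupp, IsFinSupp, iInf_Prop_eq, iSup_Prop_eq, inf_Prop_eq, himp_iff_imp,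
    compl_iff_not, relStr_mem, rel_fin, rel_val, and_imp]

theorem rel_isGrp (m : ℕ) (w g : M) : (relStr E).bIsGrp m w g ↔ IsGrp E m w g := by
  simp only [BStr.bIsGrp, IsGrp, iInf_Prop_eq, inf_Prop_eq, bihimp_iff_iff, relStr_mem, rel_fun,
    rel_finSupp]

theorem rel_add (m : ℕ) (w x y z : M) : (relStr E).bAdd m w x y z ↔ IsSum E m w x y z := by
  simp only [BStr.bAdd, IsSum, iInf_Prop_eq, iSup_Prop_eq, inf_Prop_eq, himp_iff_imp, relStr_mem,
    rel_val, and_assoc]

theorem rel_subgrp (m : ℕ) (w k l : M) : (relStr E).bSubgrp m w k l ↔ IsSubgrp E m w k l := by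
  simp only [BStr.bSubgrp, IsSubgrp, iInf_Prop_eq, inf_Prop_eq, himp_iff_imp, relStr_mem,
    rel_sub, rel_add, and_assoc, and_imp]

theorem rel_cIdx (m : ℕ) (w k l : M) : (relStr E).bCIdx m w k l ↔ IsCIdx E m w k l := by
  simp only [BStr.bCIdx, IsCIdx, iInf_Prop_eq, iSup_Prop_eq, inf_Prop_eq, himp_iff_imp,
    relStr_mem, rel_omega, rel_inRel, rel_add, and_assoc, and_imp]

theorem rel_bij (g h f : M) : (relStr E).bBijection g h f ↔ IsBij E g h f := by
  simp only [BStr.bBijection, IsBij, iInf_Prop_eq, iSup_Prop_eq, inf_Prop_eq, himp_iff_imp,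
    relStr_mem, relStr_eq, rel_inRel, and_assoc, and_imp]

theorem rel_graph (b : Bool) (f x y : M) : (relStr E).bGraph b f x y ↔ GraphOf E b f x y := by
  cases b <;> simp only [BStr.bGraph, GraphOf, rel_inRel]

theorem rel_cont (b : Bool) (m m' : ℕ) (w g h f : M) :
    (relStr E).bContinuous b m m' w g h f ↔ IsCont E b m m' w g h f := by
  simp only [BStr.bContinuous, IsCont, iInf_Prop_eq, iSup_Prop_eq, inf_Prop_eq, himp_iff_imp,
    relStr_mem, rel_graph, rel_subgrp, rel_cIdx, rel_add, and_assoc, and_imp]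

theorem bHomeo_relStr : (relStr E).bHomeo ↔ Homeomorphic E := by
  simp only [BStr.bHomeo, Homeomorphic, iSup_Prop_eq, inf_Prop_eq, rel_isW, rel_isGrp, rel_bij,
    rel_cont, and_assoc]

/-- The sentence says in every structure what it should. -/
theorem sat_homeoSentence_iff : Sat E homeoSentence ↔ Homeomorphic E := by
  rw [sat_iff_bval, BStr.bval_homeoSentence, bHomeo_relStr]

end plain

end Pool.Agent.H.MP_8ff4bd_gt.M3
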