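import Mathlib

/-!
The language of set theory and models of ZFC, for arbitrary epsilon-structures `(M, E)`.
-/

set_option autoImplicit false

namespace Pool.Agent.H.MP_8ff4bd_gt.M3

open FirstOrder

/-- The relation symbols of the language of set theory: one binary symbol. -/
inductive SetRel : ℕ → Type
  | mem : SetRel 2

/-- The first-order language of set theory: no function symbols, one binary relation symbol. -/
def LSet : FirstOrder.Language.{0, 0} := ⟨fun _ => Empty, SetRel⟩

/-- The first-order structure given by a binary relation `E` on `M` (`E x y` means `x ∈ y`). -/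
def epsStr {M : Type*} (E : M → M → Prop) : LSet.Structure M where
  funMap := fun f => Empty.elim f
  RelMap := fun {_} r =>
    match r with
    | SetRel.mem => fun xs => E (xs 0) (xs 1)

/-- `(M, E)` is a model of ZFC. The axiom schemes (separation and replacement) range over all
relations on `M` which are first-order definable with parameters from `M` (`Set.Definable₁` and
`Set.Definable₂` of Mathlib). -/
structure ZFCModel {M : Type*} (E : M → M → Prop) : Prop where
  /-- there is a set -/
  nonempty : Nonempty M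
  /-- extensionality -/
  ext : ∀ x y, (∀ z, E z x ↔ E z y) → x = y
  /-- foundation -/
  found : ∀ x, (∃ y, E y x) → ∃ y, E y x ∧ ∀ z, E z x → ¬ E z y
  /-- pairing -/
  pair : ∀ x y, ∃ z, ∀ w, E w z ↔ w = x ∨ w = y
  /-- union -/
  union : ∀ x, ∃ u, ∀ w, E w u ↔ ∃ y, E y x ∧ E w y
  /-- power set -/
  power : ∀ x, ∃ p, ∀ w, E w p ↔ ∀ z, E z w → E z x
  /-- infinity -/
  infinity : ∃ I, (∃ e, E e I ∧ ∀ z, ¬ E z e) ∧
    ∀ x, E x I → ∃ s, E s I ∧ ∀ w, E w s ↔ E w x ∨ w = x
  /-- separation -/
  separation : ∀ D : Set M, @Set.Definable₁ M Set.univ LSet (epsStr E) D →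
    ∀ a, ∃ b, ∀ x, E x b ↔ E x a ∧ x ∈ D
  /-- replacement -/
  replacement : ∀ R : Set (M × M), @Set.Definable₂ M Set.univ LSet (epsStr E) R →
    ∀ a, (∀ x, E x a → ∃! y, (x, y) ∈ R) → ∃ b, ∀ y, E y b ↔ ∃ x, E x a ∧ (x, y) ∈ R
  /-- choice: a set of nonempty pairwise disjoint sets has a transversal -/
  choice : ∀ a, (∀ x, E x a → ∃ y, E y x) →
    (∀ x y, E x a → E y a → ∀ z, E z x → E z y → x = y) →
    ∃ c, ∀ x, E x a → ∃! y, E y x ∧ E y c

/-- Realisation of a first-order sentence in `(M, E)`. -/
def Sat {M : Type*} (E : M → M → Prop) (φ : LSet.Sentence) : Prop :=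
  @FirstOrder.Language.Sentence.Realize LSet M (epsStr E) φ

end Pool.Agent.H.MP_8ff4bd_gt.M3
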