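import Pool.Agent.H.MP_8ff4bd_gt.M3.S.Ultra
import Pool.Agent.H.MP_8ff4bd_gt.M3.S.ZFCModel

/-!
B-values of first-order formulas and the theorem of Los for the ultrafilter quotient.
-/

set_option autoImplicit false

namespace Pool.Agent.H.MP_8ff4bd_gt.M3

open FirstOrder

universe u v w

namespace BStr

variable {B : Type u} [CompleteBooleanAlgebra B] {V : Type v} (S : BStr B V)

/-- evaluation of a term (all terms are variables) -/
def tval {X : Type*} {β : Type w} : LSet.Term β → (β → X) → X
  | .var a, v => v a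
  | .func f _, _ => Empty.elim f

/-- evaluation of the relation symbol -/
def relval : ∀ {n : ℕ}, SetRel n → (Fin n → V) → B
  | _, SetRel.mem, xs => S.mem (xs 0) (xs 1)

/-- the `B`-value of a formula -/
def bval {α : Type w} : ∀ {n : ℕ}, LSet.BoundedFormula α n → (α → V) → (Fin n → V) → B
  | _, .falsum, _, _ => ⊥
  | _, .equal t₁ t₂, v, xs => S.eq (tval t₁ (Sum.elim v xs)) (tval t₂ (Sum.elim v xs))
  | _, .rel R ts, v, xs => S.relval R (fun i => tval (ts i) (Sum.elim v xs))
  | _, .imp f g, v, xs => bval f v xs ⇨ bval g v xs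
  | _, .all f, v, xs => ⨅ x, bval f v (Fin.snoc xs x)

/-- the value of equality of two tuples -/
def teq {β : Type w} (v v' : β → V) : B := ⨅ i, S.eq (v i) (v' i)

theorem tval_congr {β : Type w} (t : LSet.Term β) (v v' : β → V) :
    S.teq v v' ≤ S.eq (tval t v) (tval t v') := by
  cases t with
  | var a => exact iInf_le (fun i => S.eq (v i) (v' i)) a
  | func f _ => exact Empty.elim f

theorem relval_congr {n : ℕ} (R : SetRel n) (xs xs' : Fin n → V) :
    S.teq xs xs' ⊓ S.relval R xs ≤ S.relval R xs' := by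
  cases R with
  | mem =>
    change S.teq xs xs' ⊓ S.mem (xs 0) (xs 1) ≤ S.mem (xs' 0) (xs' 1)
    calc S.teq xs xs' ⊓ S.mem (xs 0) (xs 1)
        ≤ S.eq (xs 1) (xs' 1) ⊓ (S.eq (xs 0) (xs' 0) ⊓ S.mem (xs 0) (xs 1)) :=
          le_inf (inf_le_left.trans (iInf_le (fun i => S.eq (xs i) (xs' i)) 1))
            (inf_le_inf_right _ (iInf_le (fun i => S.eq (xs i) (xs' i)) 0))
      _ ≤ S.eq (xs 1) (xs' 1) ⊓ S.mem (xs' 0) (xs 1) :=
          inf_le_inf_left _ (S.mem_congr_left _ _ _)
      _ ≤ S.mem (xs' 0) (xs' 1) := S.mem_congr_right _ _ _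

theorem teq_symm {β : Type w} (v v' : β → V) : S.teq v v' = S.teq v' v := by
  simp only [teq, S.eq_symm]

theorem teq_snoc {n : ℕ} (xs xs' : Fin n → V) (x : V) :
    S.teq (Fin.snoc (α := fun _ => V) xs x) (Fin.snoc (α := fun _ => V) xs' x) = S.teq xs xs' := by
  apply le_antisymm
  · refine le_iInf fun i => (iInf_le _ (Fin.castSucc i)).trans ?_
    simp
  · refine le_iInf fun i => ?_
    induction i using Fin.lastCases with
    | last => simp [S.eq_refl]
    | cast i =>
      simp only [Fin.snoc_castSucc]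
      exact iInf_le _ i

theorem teq_elim {α : Type w} {n : ℕ} (v v' : α → V) (xs xs' : Fin n → V) :
    S.teq v v' ⊓ S.teq xs xs' ≤ S.teq (Sum.elim v xs) (Sum.elim v' xs') := by
  refine le_iInf fun i => ?_
  cases i with
  | inl a => exact inf_le_left.trans (iInf_le _ a)
  | inr i => exact inf_le_right.trans (iInf_le _ i)

theorem teq_tval {n : ℕ} {β : Type w} (ts : Fin n → LSet.Term β) (v v' : β → V) :
    S.teq v v' ≤ S.teq (fun i => tval (ts i) v) (fun i => tval (ts i) v') :=
  le_iInf fun i => S.tval_congr (ts i) v v'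

theorem bval_congr {α : Type w} {n : ℕ} (φ : LSet.BoundedFormula α n) (v v' : α → V)
    (xs xs' : Fin n → V) :
    S.teq v v' ⊓ S.teq xs xs' ⊓ S.bval φ v xs ≤ S.bval φ v' xs' := by
  induction φ generalizing v v' with
  | falsum => exact inf_le_right
  | equal t₁ t₂ =>
    have h := S.teq_elim v v' xs xs'
    have h1 := h.trans (S.tval_congr t₁ _ _)
    have h2 := h.trans (S.tval_congr t₂ _ _)
    change S.teq v v' ⊓ S.teq xs xs' ⊓ S.eq _ _ ≤ S.eq _ _
    refine (le_inf ((inf_le_left.trans h1).trans (S.eq_symm _ _).le)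
      (le_inf inf_le_right (inf_le_left.trans h2))).trans ?_
    exact (inf_le_inf_left _ (S.eq_trans _ _ _)).trans (S.eq_trans _ _ _)
  | rel R ts =>
    have h := (S.teq_elim v v' xs xs').trans (S.teq_tval ts _ _)
    exact (inf_le_inf_right _ h).trans (S.relval_congr R _ _)
  | imp f g hf hg =>
    change S.teq v v' ⊓ S.teq xs xs' ⊓ (S.bval f v xs ⇨ S.bval g v xs) ≤
      (S.bval f v' xs' ⇨ S.bval g v' xs')
    rw [le_himp_iff]
    refine le_trans ?_ (hg v v' xs xs')
    refine le_inf (inf_le_left.trans inf_le_left) ?_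
    have h1 : S.teq v v' ⊓ S.teq xs xs' ⊓ (S.bval f v xs ⇨ S.bval g v xs) ⊓ S.bval f v' xs' ≤
        S.bval f v xs := by
      refine le_trans (le_inf (inf_le_left.trans inf_le_left) inf_le_right) ?_
      rw [S.teq_symm v v', S.teq_symm xs xs']
      exact hf v' v xs' xs
    exact le_himp_iff.1 (le_refl _) |> fun h2 =>
      (le_inf (inf_le_left.trans inf_le_right) h1).trans h2
  | all f hf =>
    refine le_iInf fun x => ?_
    refine le_trans ?_ (hf v v' (Fin.snoc xs x) (Fin.snoc xs' x))
    rw [S.teq_snoc]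
    exact inf_le_inf_left _ (iInf_le _ x)

theorem isExt_bval_snoc {α : Type w} {n : ℕ} (φ : LSet.BoundedFormula α (n + 1)) (v : α → V)
    (xs : Fin n → V) : S.IsExt fun x => S.bval φ v (Fin.snoc xs x) := by
  intro x y
  refine le_trans ?_ (S.bval_congr φ v v (Fin.snoc xs x) (Fin.snoc xs y))
  refine inf_le_inf_right _ (le_inf ?_ ?_)
  · exact le_iInf fun i => by rw [S.eq_refl]; exact le_top
  · refine le_iInf fun i => ?_
    induction i using Fin.lastCases with
    | last => simp
    | cast i => simp [S.eq_refl]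

theorem tval_comp {β : Type w} {X Y : Type*} (g : X → Y) (t : LSet.Term β) (v : β → X) :
    g (tval t v) = tval t (g ∘ v) := by
  cases t with
  | var a => rfl
  | func f _ => exact Empty.elim f

theorem realize_tval {β : Type w} {M : Type*} (E : M → M → Prop) (t : LSet.Term β) (v : β → M) :
    @FirstOrder.Language.Term.realize LSet M (epsStr E) β v t = tval t v := by
  cases t with
  | var a => rfl
  | func f _ => exact Empty.elim f

/-- The theorem of Los. -/
theorem BZFC.los {S : BStr B V} (hS : S.BZFC) (U : BUlt B) {α : Type w} {n : ℕ}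
    (φ : LSet.BoundedFormula α n) (v : α → V) (xs : Fin n → V) :
    @FirstOrder.Language.BoundedFormula.Realize LSet (S.Quo U) (epsStr (S.qmem U)) α n φ
      (S.qmk U ∘ v) (S.qmk U ∘ xs) ↔ S.bval φ v xs ∈ U.carrier := by
  let _ := epsStr (S.qmem U)
  induction φ with
  | falsum =>
    constructor
    · exact fun h => h.elim
    · exact fun h => (U.bot_notMem h).elim
  | equal t₁ t₂ =>
    change (@FirstOrder.Language.Term.realize LSet _ _ _ _ t₁ =
      @FirstOrder.Language.Term.realize LSet _ _ _ _ t₂) ↔ _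
    rw [realize_tval, realize_tval, ← Sum.comp_elim, ← tval_comp, ← tval_comp, S.qmk_eq_iff]
    rfl
  | rel R ts =>
    cases R with
    | mem =>
      change S.qmem U (@FirstOrder.Language.Term.realize LSet _ _ _ _ (ts 0))
        (@FirstOrder.Language.Term.realize LSet _ _ _ _ (ts 1)) ↔ _
      rw [realize_tval, realize_tval, ← Sum.comp_elim, ← tval_comp, ← tval_comp, S.qmem_qmk]
      rfl
  | imp f g hf hg =>
    exact (imp_congr (hf _) (hg _)).trans (U.himp_iff _ _).symm
  | @all m f hf =>
    refine Iff.trans ?_ (hS.iInf_iff U (S.isExt_bval_snoc f v _)).symm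
    refine (S.qmk_surjective U).forall.trans (forall_congr' fun x => ?_)
    have h := hf (Fin.snoc xs x)
    rw [Fin.comp_snoc] at h
    exact h

end BStr

end Pool.Agent.H.MP_8ff4bd_gt.M3
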