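import Pool.Agent.H.MP_8ff4bd_gt.M3.S.Los

/-!
The ultrafilter quotient of a B-valued model of ZFC is a model of ZFC.
-/

set_option autoImplicit false

namespace Pool.Agent.H.MP_8ff4bd_gt.M3

open FirstOrder
open scoped symmDiff

universe u v w

namespace BStr

variable {B : Type u} [CompleteBooleanAlgebra B] {V : Type v} {S : BStr B V}

section Ext

theorem IsExt.inf {φ ψ : V → B} (h : S.IsExt φ) (h' : S.IsExt ψ) : S.IsExt fun x => φ x ⊓ ψ x := by
  intro x y
  exact le_inf ((inf_le_inf_left _ inf_le_left).trans (h x y))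
    ((inf_le_inf_left _ inf_le_right).trans (h' x y))

theorem IsExt.himp {φ ψ : V → B} (h : S.IsExt φ) (h' : S.IsExt ψ) :
    S.IsExt fun x => φ x ⇨ ψ x := by
  intro x y
  rw [le_himp_iff]
  have h1 : S.eq x y ⊓ (φ x ⇨ ψ x) ⊓ φ y ≤ φ x := by
    refine le_trans (le_inf (inf_le_left.trans inf_le_left) inf_le_right) ?_
    rw [S.eq_symm]
    exact h y x
  have h2 : S.eq x y ⊓ (φ x ⇨ ψ x) ⊓ φ y ≤ ψ x :=
    (le_inf (inf_le_left.trans inf_le_right) h1).trans himp_inf_le
  exact (le_inf (inf_le_left.trans inf_le_left) h2).trans (h' x y)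

theorem IsExt.bihimp {φ ψ : V → B} (h : S.IsExt φ) (h' : S.IsExt ψ) :
    S.IsExt fun x => φ x ⇔ ψ x := (h'.himp h).inf (h.himp h')

theorem IsExt.sup {φ ψ : V → B} (h : S.IsExt φ) (h' : S.IsExt ψ) : S.IsExt fun x => φ x ⊔ ψ x := by
  intro x y
  rw [inf_sup_left]
  exact sup_le_sup (h x y) (h' x y)

theorem IsExt.iSup {ι : Sort*} {φ : ι → V → B} (h : ∀ i, S.IsExt (φ i)) :
    S.IsExt fun x => ⨆ i, φ i x := by
  intro x y
  rw [inf_iSup_eq]
  exact iSup_mono fun i => h i x y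

theorem IsExt.iInf {ι : Sort*} {φ : ι → V → B} (h : ∀ i, S.IsExt (φ i)) :
    S.IsExt fun x => ⨅ i, φ i x := by
  intro x y
  exact le_iInf fun i => (inf_le_inf_left _ (iInf_le _ i)).trans (h i x y)

theorem isExt_const (b : B) : S.IsExt fun _ => b := fun _ _ => inf_le_right

theorem isExt_mem_left (y : V) : S.IsExt fun x => S.mem x y :=
  fun x x' => S.mem_congr_left x x' y

theorem isExt_mem_right (x : V) : S.IsExt fun y => S.mem x y :=
  fun y y' => S.mem_congr_right x y y'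

theorem isExt_mem_self : S.IsExt fun x => S.mem x x := by
  intro x y
  refine le_trans (le_inf inf_le_left ?_) (S.mem_congr_right y x y)
  exact S.mem_congr_left x y x

theorem isExt_eq_left (y : V) : S.IsExt fun x => S.eq x y := by
  intro x x'
  rw [S.eq_symm x x']
  exact S.eq_trans x' x y

theorem isExt_eq_right (x : V) : S.IsExt fun y => S.eq x y := by
  intro y y'
  rw [inf_comm]
  exact S.eq_trans x y y'

end Ext

/-- An element of the quotient given by a name. -/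
theorem forall_quo {U : BUlt B} {P : S.Quo U → Prop} :
    (∀ q, P q) ↔ ∀ x, P (S.qmk U x) := (S.qmk_surjective U).forall

theorem exists_quo {U : BUlt B} {P : S.Quo U → Prop} :
    (∃ q, P q) ↔ ∃ x, P (S.qmk U x) := (S.qmk_surjective U).exists

variable (hS : S.BZFC) (U : BUlt B)

include hS

theorem BZFC.q_compr (φ : V → B) (hφ : S.IsExt φ) (a : V) :
    ∃ b, ∀ x, S.qmem U (S.qmk U x) (S.qmk U b) ↔
      S.qmem U (S.qmk U x) (S.qmk U a) ∧ φ x ∈ U.carrier := by
  obtain ⟨b, hb⟩ := hS.compr φ hφ a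
  refine ⟨b, fun x => ?_⟩
  rw [S.qmem_qmk, hb, U.inf_iff, S.qmem_qmk]

/-- definable relations come from extensional `B`-valued predicates -/
theorem BZFC.definable {n : ℕ} (D : Set (Fin n → S.Quo U))
    (hD : @Set.Definable (S.Quo U) Set.univ LSet (epsStr (S.qmem U)) (Fin n) D) :
    ∃ Φ : (Fin n → V) → B, (∀ xs xs', S.teq xs xs' ⊓ Φ xs ≤ Φ xs') ∧
      ∀ xs, (S.qmk U ∘ xs) ∈ D ↔ Φ xs ∈ U.carrier := by
  let _ := epsStr (S.qmem U)
  rw [Set.definable_iff_exists_formula_sum] at hD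
  obtain ⟨φ, rfl⟩ := hD
  obtain ⟨g, hg⟩ : ∃ g : ((Set.univ : Set (S.Quo U)) : Type v) → V, ∀ a, S.qmk U (g a) = a.1 :=
    ⟨fun a => (S.qmk_surjective U a.1).choose, fun a => (S.qmk_surjective U a.1).choose_spec⟩
  refine ⟨fun xs => S.bval φ (Sum.elim g xs) default, ?_, ?_⟩
  · intro xs xs'
    refine le_trans ?_ (S.bval_congr φ (Sum.elim g xs) (Sum.elim g xs') default default)
    refine inf_le_inf_right _ (le_inf (le_iInf fun i => ?_) (le_iInf fun i => i.elim0))
    cases i with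
    | inl a => simp [S.eq_refl]
    | inr i => exact iInf_le _ i
  · intro xs
    rw [← hS.los U φ (Sum.elim g xs) default]
    have h1 : S.qmk U ∘ Sum.elim g xs = Sum.elim (↑) (S.qmk U ∘ xs) := by
      ext i
      cases i with
      | inl a => exact hg a
      | inr i => rfl
    rw [h1]
    have h2 : S.qmk U ∘ (default : Fin 0 → V) = default := Subsingleton.elim _ _
    rw [h2]
    rfl

/-- the quotient is a model of ZFC -/
theorem BZFC.zfcModel : ZFCModel (S.qmem U) where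
  nonempty := by
    obtain ⟨I, -⟩ := hS.infinity
    exact ⟨S.qmk U I⟩
  ext := by
    rw [forall_quo]
    intro x
    rw [forall_quo]
    intro y h
    rw [S.qmk_eq_iff]
    refine U.mono _ _ (hS.ext x y) ?_
    rw [hS.iInf_iff U ((isExt_mem_left x).bihimp (isExt_mem_left y))]
    intro z
    rw [U.bihimp_iff]
    exact h (S.qmk U z)
  found := by
    rw [forall_quo]
    rintro x ⟨y, hy⟩
    obtain ⟨y, rfl⟩ := S.qmk_surjective U y
    have h1 : (⨆ y, S.mem y x) ∈ U.carrier := U.mono _ _ (le_iSup (fun y => S.mem y x) y) hy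
    have h2 := U.mono _ _ (hS.found x) h1
    have hext : ∀ y, S.IsExt fun z => (S.mem z x ⇨ (S.mem z y)ᶜ) := fun y =>
      (isExt_mem_left x).himp (isExt_mem_left y).compl
    rw [hS.iSup_iff U ((isExt_mem_left x).inf (IsExt.iInf fun z =>
      (isExt_const _).himp (isExt_mem_right z).compl))] at h2
    obtain ⟨y, hy⟩ := h2
    rw [U.inf_iff, hS.iInf_iff U (hext y)] at hy
    refine ⟨S.qmk U y, hy.1, ?_⟩
    rw [forall_quo]
    intro z hz hz'
    have h3 := (U.himp_iff _ _).1 (hy.2 z) hz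
    exact (U.compl_iff _).1 h3 hz'
  pair := by
    rw [forall_quo]
    intro x
    rw [forall_quo]
    intro y
    obtain ⟨z, hz⟩ := hS.pair x y
    refine ⟨S.qmk U z, ?_⟩
    rw [forall_quo]
    intro w
    rw [S.qmem_qmk, hz, U.sup_iff, S.qmk_eq_iff, S.qmk_eq_iff]
  union := by
    rw [forall_quo]
    intro x
    obtain ⟨z, hz⟩ := hS.union x
    refine ⟨S.qmk U z, ?_⟩
    rw [forall_quo]
    intro w
    rw [S.qmem_qmk, hz, hS.iSup_iff U ((isExt_mem_left x).inf (isExt_mem_right w)), exists_quo]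
    simp only [U.inf_iff, S.qmem_qmk]
  power := by
    rw [forall_quo]
    intro x
    obtain ⟨z, hz⟩ := hS.power x
    refine ⟨S.qmk U z, ?_⟩
    rw [forall_quo]
    intro w
    rw [S.qmem_qmk, hz, hS.iInf_iff U ((isExt_mem_left w).himp (isExt_mem_left x)), forall_quo]
    simp only [U.himp_iff, S.qmem_qmk]
  infinity := by
    obtain ⟨I, e, h1, h2, h3⟩ := hS.infinity
    refine ⟨S.qmk U I, ⟨S.qmk U e, ?_, ?_⟩, ?_⟩
    · rw [S.qmem_qmk, h1]
      exact U.top_mem
    · rw [forall_quo]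
      intro z
      rw [S.qmem_qmk, h2]
      exact U.bot_notMem
    · rw [forall_quo]
      intro x hx
      obtain ⟨s, hs, hs'⟩ := h3 x
      refine ⟨S.qmk U s, U.mono _ _ hs hx, ?_⟩
      rw [forall_quo]
      intro w
      rw [S.qmem_qmk, hs', U.sup_iff, S.qmem_qmk, S.qmk_eq_iff]
  separation := by
    intro D hD
    obtain ⟨Φ, hΦ, hΦD⟩ := hS.definable U _ hD
    rw [forall_quo]
    intro a
    obtain ⟨b, hb⟩ := hS.q_compr U (fun x => Φ fun _ => x) (fun x y => by
      refine le_trans (inf_le_inf_right _ (le_iInf fun _ => le_rfl)) (hΦ _ _)) a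
    refine ⟨S.qmk U b, ?_⟩
    rw [forall_quo]
    intro x
    rw [hb, ← hΦD]
    rfl
  replacement := by
    intro R hR
    obtain ⟨Φ, hΦ, hΦR⟩ := hS.definable U _ hR
    have hR' : ∀ x y, (S.qmk U x, S.qmk U y) ∈ R ↔ Φ ![x, y] ∈ U.carrier := fun x y => by
      rw [← hΦR]
      rfl
    have hext1 : ∀ y, S.IsExt fun x => Φ ![x, y] := fun y x x' => by
      refine le_trans (inf_le_inf_right _ (le_iInf fun i => ?_)) (hΦ _ _)
      fin_cases i
      · exact le_rfl
      · simp [S.eq_refl]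
    have hext2 : ∀ x, S.IsExt fun y => Φ ![x, y] := fun x y y' => by
      refine le_trans (inf_le_inf_right _ (le_iInf fun i => ?_)) (hΦ _ _)
      fin_cases i
      · simp [S.eq_refl]
      · exact le_rfl
    rw [forall_quo]
    intro a ha
    obtain ⟨b, hb⟩ := hS.coll (fun x y => Φ ![x, y]) hext1 hext2 a
    have hext3 : S.IsExt fun y => ⨆ x, S.mem x a ⊓ Φ ![x, y] :=
      IsExt.iSup fun x => (isExt_const _).inf (hext2 x)
    obtain ⟨c, hc⟩ := hS.q_compr U _ hext3 b
    refine ⟨S.qmk U c, ?_⟩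
    rw [forall_quo]
    intro y
    rw [hc, hS.iSup_iff U ((isExt_mem_left a).inf (hext1 y)), exists_quo]
    simp only [U.inf_iff, S.qmem_qmk, hR']
    constructor
    · exact fun h => h.2
    · rintro ⟨x, hx, hxy⟩
      refine ⟨?_, x, hx, hxy⟩
      obtain ⟨y', hy', hu⟩ := ha (S.qmk U x) hx
      obtain ⟨y', rfl⟩ := S.qmk_surjective U y'
      have h1 : (S.mem x a ⊓ ⨆ y, Φ ![x, y]) ∈ U.carrier :=
        U.inf_mem _ _ hx (U.mono _ _ (le_iSup (fun y => Φ ![x, y]) y) hxy)
      have h2 := U.mono _ _ (hb x) h1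
      rw [hS.iSup_iff U ((isExt_mem_left b).inf (hext2 x))] at h2
      obtain ⟨y'', hy''⟩ := h2
      rw [U.inf_iff] at hy''
      have h3 : S.qmk U y'' = S.qmk U y := by
        rw [hu _ ((hR' x y'').2 hy''.2), hu _ ((hR' x y).2 hxy)]
      have h4 : S.qmem U (S.qmk U y'') (S.qmk U b) := hy''.1
      rw [h3] at h4
      exact h4
  choice := by
    rw [forall_quo]
    intro a h1 h2
    obtain ⟨c, hc⟩ := hS.choice a
    refine ⟨S.qmk U c, ?_⟩
    have hx1 : S.IsExt fun x => (S.mem x a ⇨ ⨆ y, S.mem y x) :=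
      (isExt_mem_left a).himp (IsExt.iSup fun y => isExt_mem_right y)
    have e1 : ∀ x y, S.IsExt fun z => (S.mem x a ⊓ S.mem y a ⊓ S.mem z x ⊓ S.mem z y ⇨ S.eq x y) :=
      fun x y => (((isExt_const _).inf (isExt_mem_left x)).inf (isExt_mem_left y)).himp
        (isExt_const _)
    have e2 : ∀ x, S.IsExt fun y => ⨅ z, (S.mem x a ⊓ S.mem y a ⊓ S.mem z x ⊓ S.mem z y ⇨
        S.eq x y) := fun x => IsExt.iInf fun z =>
      ((((isExt_const _).inf (isExt_mem_left a)).inf (isExt_const _)).inf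
        (isExt_mem_right z)).himp (isExt_eq_right x)
    have e3 : S.IsExt fun x => ⨅ y, ⨅ z, (S.mem x a ⊓ S.mem y a ⊓ S.mem z x ⊓ S.mem z y ⇨
        S.eq x y) := IsExt.iInf fun y => IsExt.iInf fun z =>
      ((((isExt_mem_left a).inf (isExt_const _)).inf (isExt_mem_right z)).inf
        (isExt_const _)).himp (isExt_eq_left y)
    have hL : (⨅ x, (S.mem x a ⇨ ⨆ y, S.mem y x)) ⊓
      (⨅ x, ⨅ y, ⨅ z, (S.mem x a ⊓ S.mem y a ⊓ S.mem z x ⊓ S.mem z y ⇨ S.eq x y)) ∈
        U.carrier := by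
      rw [U.inf_iff, hS.iInf_iff U hx1, hS.iInf_iff U e3]
      constructor
      · intro x
        rw [U.himp_iff, hS.iSup_iff U (isExt_mem_left x)]
        intro hx
        have h3 := h1 (S.qmk U x) hx
        rw [exists_quo] at h3
        exact h3
      · intro x
        rw [hS.iInf_iff U (e2 x)]
        intro y
        rw [hS.iInf_iff U (e1 x y)]
        intro z
        rw [U.himp_iff, U.inf_iff, U.inf_iff, U.inf_iff, ← S.qmk_eq_iff]
        rintro ⟨⟨⟨hx, hy⟩, hz⟩, hz'⟩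
        exact h2 _ _ hx hy (S.qmk U z) hz hz'
    have hR := U.mono _ _ hc hL
    have f1 : ∀ x y, S.IsExt fun z => (S.mem z x ⊓ S.mem z c ⇨ S.eq z y) := fun x y =>
      ((isExt_mem_left x).inf (isExt_mem_left c)).himp (isExt_eq_left y)
    have f2 : ∀ x, S.IsExt fun y => (S.mem y x ⊓ S.mem y c ⊓
      ⨅ z, (S.mem z x ⊓ S.mem z c ⇨ S.eq z y)) := fun x =>
      ((isExt_mem_left x).inf (isExt_mem_left c)).inf (IsExt.iInf fun z =>
        (isExt_const _).himp (isExt_eq_right z))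
    have f3 : S.IsExt fun x => (S.mem x a ⇨ ⨆ y, (S.mem y x ⊓ S.mem y c ⊓
      ⨅ z, (S.mem z x ⊓ S.mem z c ⇨ S.eq z y))) :=
      (isExt_mem_left a).himp (IsExt.iSup fun y => ((isExt_mem_right y).inf (isExt_const _)).inf
        (IsExt.iInf fun z => ((isExt_mem_right z).inf (isExt_const _)).himp (isExt_const _)))
    rw [hS.iInf_iff U f3] at hR
    rw [forall_quo]
    intro x hx
    have h3 := (U.himp_iff _ _).1 (hR x) hx
    rw [hS.iSup_iff U (f2 x)] at h3
    obtain ⟨y, hy⟩ := h3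
    rw [U.inf_iff, U.inf_iff, hS.iInf_iff U (f1 x y)] at hy
    refine ⟨S.qmk U y, hy.1, ?_⟩
    intro z hz
    obtain ⟨z, rfl⟩ := S.qmk_surjective U z
    rw [S.qmk_eq_iff]
    refine (U.himp_iff _ _).1 (hy.2 z) ?_
    rw [U.inf_iff]
    exact hz

end BStr

end Pool.Agent.H.MP_8ff4bd_gt.M3
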