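import Pool.Agent.H.MP_8ff4bd_gt.M3.S.TheoryB
import Pool.Agent.H.MP_8ff4bd_gt.M3.S.Transfer

/-!
A sentence whose value in a B-valued model of ZFC is not the top element is not a consequence of
ZFC.
-/

set_option autoImplicit false

namespace Pool.Agent.H.MP_8ff4bd_gt.M3

open FirstOrder

universe u v w

theorem ZFCModel.realize_of_models {M : Type u} {E : M → M → Prop} (h : ZFCModel E)
    {φ : LSet.Sentence} (hφ : ZFC ⊨ᵇ φ) : Sat E φ := by
  let _ := epsStr E
  have _ := h.nonempty
  have _ := h.model
  exact hφ.realize_sentence M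

namespace BStr

variable {B : Type u} [CompleteBooleanAlgebra B] {V : Type v} {S : BStr B V}

theorem BZFC.sat_iff (hS : S.BZFC) (U : BUlt B) (φ : LSet.Sentence) :
    Sat (S.qmem U) φ ↔ S.bval φ default default ∈ U.carrier := by
  rw [← hS.los U φ default default]
  unfold Sat FirstOrder.Language.Sentence.Realize FirstOrder.Language.Formula.Realize
  refine iff_of_eq ?_
  congr 1
  · exact Subsingleton.elim _ _
  · exact Subsingleton.elim _ _

/-- A sentence whose value is not `⊤` does not follow from ZFC. -/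
theorem BZFC.not_models (hS : S.BZFC) (φ : LSet.Sentence) (h : S.bval φ default default ≠ ⊤) :
    ¬ (ZFC ⊨ᵇ φ) := by
  intro hφ
  have h1 : (S.bval φ default default)ᶜ ≠ ⊥ := fun h2 => h (compl_eq_bot.1 h2)
  obtain ⟨U, hU⟩ := exists_ult _ h1
  have h2 := (hS.zfcModel U).realize_of_models hφ
  rw [hS.sat_iff] at h2
  exact (U.compl_iff _).1 hU h2

/-- A sentence whose value is not `⊥` is not refuted by ZFC. -/
theorem BZFC.not_models_not (hS : S.BZFC) (φ : LSet.Sentence)
    (h : S.bval φ default default ≠ ⊥) : ¬ (ZFC ⊨ᵇ FirstOrder.Language.BoundedFormula.not φ) := by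
  refine hS.not_models _ fun h1 => h ?_
  rw [bval_not] at h1
  exact compl_eq_top.1 h1

end BStr

end Pool.Agent.H.MP_8ff4bd_gt.M3
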