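import Pool.Agent.H.MP_8ff4bd_gt.M3.S.BVal

/-!
The set-theoretic notions of the homeomorphism statement in an arbitrary B-valued structure
(version 2).  All quantifiers range over the whole structure.

`W` is the set of all countable ordinals, and for `m = 2, 3` the direct sum of `W` copies of the
cyclic group of order `m` is the set of all functions from `W` to the numeral `m` with finite
support, with the addition modulo `m` at every point.
-/

set_option autoImplicit false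

namespace Pool.Agent.H.MP_8ff4bd_gt.M3

open scoped symmDiff

universe u v

namespace BStr

variable {B : Type u} [CompleteBooleanAlgebra B] {V : Type v} (S : BStr B V)

/-- `x ⊆ y` -/
def bSubset (x y : V) : B := ⨅ z, S.mem z x ⇨ S.mem z y

/-- `x = ∅` -/
def bEmpty (x : V) : B := ⨅ z, (S.mem z x)ᶜ

/-- `z = {x}` -/
def bSing (z x : V) : B := ⨅ w, S.mem w z ⇔ S.eq w x

/-- `z = {x, y}` -/
def bPair (z x y : V) : B := ⨅ w, S.mem w z ⇔ (S.eq w x ⊔ S.eq w y)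

/-- `z = (x, y) = {{x}, {x, y}}` -/
def bOPair (z x y : V) : B := ⨆ a, ⨆ b, S.bSing a x ⊓ S.bPair b x y ⊓ S.bPair z a b

/-- `(x, y) ∈ f` -/
def bRel (f x y : V) : B := ⨆ p, S.mem p f ⊓ S.bOPair p x y

/-- `z = y ∪ {t}` -/
def bInsert (z y t : V) : B := ⨅ w, S.mem w z ⇔ (S.mem w y ⊔ S.eq w t)

/-- `x` is finite: it belongs to every family containing `∅` and closed under adjoining elements of
`x` -/
def bFin (x : V) : B :=
  ⨅ s, ((⨆ e, S.mem e s ⊓ S.bEmpty e) ⊓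
    ⨅ y, ⨅ t, (S.mem y s ⊓ S.mem t x ⇨ ⨆ z, S.mem z s ⊓ S.bInsert z y t)) ⇨ S.mem x s

/-- `s` contains `∅` and is closed under `n ↦ n ∪ {n}` -/
def bInductive (s : V) : B :=
  (⨆ e, S.mem e s ⊓ S.bEmpty e) ⊓ ⨅ n, (S.mem n s ⇨ ⨆ m, S.mem m s ⊓ S.bInsert m n n)

/-- `o = ω` -/
def bOmega (o : V) : B := S.bInductive o ⊓ ⨅ s, (S.bInductive s ⇨ S.bSubset o s)

/-- `x` is countable: there is a relation between `x` and `ω` which is total on `x` and injective -/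
def bCtbl (x : V) : B :=
  ⨆ o, ⨆ r, S.bOmega o ⊓ (⨅ t, (S.mem t x ⇨ ⨆ n, S.mem n o ⊓ S.bRel r t n)) ⊓
    ⨅ t, ⨅ t', ⨅ n, (S.mem t x ⊓ S.mem t' x ⊓ S.mem n o ⊓ S.bRel r t n ⊓ S.bRel r t' n ⇨ S.eq t t')

/-- `x` is transitive -/
def bTrans (x : V) : B := ⨅ y, (S.mem y x ⇨ S.bSubset y x)

/-- `x` is an ordinal -/
def bOrd (x : V) : B := S.bTrans x ⊓ ⨅ y, (S.mem y x ⇨ S.bTrans y)

/-- `w` is the set of all countable ordinals (that is, `w = ω₁`) -/
def bIsW (w : V) : B := ⨅ x, S.mem x w ⇔ (S.bOrd x ⊓ S.bCtbl x)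

/-- `x` is the von Neumann numeral `n` -/
def bNum : ℕ → V → B
  | 0, x => S.bEmpty x
  | n + 1, x => ⨆ y, bNum n y ⊓ S.bInsert x y y

/-- `x` is a von Neumann numeral smaller than `m` -/
def bLess (m : ℕ) (x : V) : B := ⨆ i : Fin m, S.bNum i x

/-- the value of the function `x` at `t` is the numeral `i` -/
def bVal (x t : V) (i : ℕ) : B := ⨆ n, S.bNum i n ⊓ S.bRel x t n

/-- `x` is a function from `w` to the numeral `m` -/
def bFun (m : ℕ) (w x : V) : B :=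
  (⨅ p, (S.mem p x ⇨ ⨆ t, ⨆ n, S.mem t w ⊓ S.bLess m n ⊓ S.bOPair p t n)) ⊓
  (⨅ t, (S.mem t w ⇨ ⨆ n, S.bRel x t n)) ⊓
  (⨅ t, ⨅ n, ⨅ n', (S.bRel x t n ⊓ S.bRel x t n' ⇨ S.eq n n'))

/-- the function `x` has finite support -/
def bFinSupp (w x : V) : B := ⨆ s, S.bFin s ⊓ ⨅ t, (S.mem t w ⊓ (S.bVal x t 0)ᶜ ⇨ S.mem t s)

/-- `g` is the set of all finitely supported functions from `w` to `m` (the underlying set of the
direct sum of `w` copies of the cyclic group of order `m`) -/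
def bIsGrp (m : ℕ) (w g : V) : B := ⨅ x, S.mem x g ⇔ (S.bFun m w x ⊓ S.bFinSupp w x)

/-- `z = x + y` (pointwise addition modulo `m` on `w`) -/
def bAdd (m : ℕ) (w x y z : V) : B :=
  ⨅ t, (S.mem t w ⇨ ⨆ i : Fin m, ⨆ j : Fin m,
    S.bVal x t i ⊓ S.bVal y t j ⊓ S.bVal z t ((i + j : ℕ) % m))

/-- `l` is a subgroup of `k` (for a group of exponent `m`: a subset which contains zero and is
closed under addition) -/
def bSubgrp (m : ℕ) (w k l : V) : B :=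
  S.bSubset l k ⊓ (⨅ o, (S.mem o k ⊓ S.bAdd m w o o o ⇨ S.mem o l)) ⊓
    ⨅ x, ⨅ y, ⨅ z, (S.mem x l ⊓ S.mem y l ⊓ S.mem z k ⊓ S.bAdd m w x y z ⇨ S.mem z l)

/-- the subgroup `l` has countable index in `k`: there is a relation `r` between `k` and `ω` which
is total on `k` and such that elements of `k` related to the same natural number differ by an
element of `l` -/
def bCIdx (m : ℕ) (w k l : V) : B :=
  ⨆ o, ⨆ r, S.bOmega o ⊓ (⨅ x, (S.mem x k ⇨ ⨆ n, S.mem n o ⊓ S.bRel r x n)) ⊓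
    ⨅ x, ⨅ y, ⨅ n, (S.mem x k ⊓ S.mem y k ⊓ S.mem n o ⊓ S.bRel r x n ⊓ S.bRel r y n ⇨
      ⨆ z, S.mem z l ⊓ S.bAdd m w y z x)

/-- `f` is a bijection between `g` and `h` -/
def bBijection (g h f : V) : B :=
  (⨅ x, (S.mem x g ⇨ ⨆ y, S.mem y h ⊓ S.bRel f x y)) ⊓
  (⨅ x, ⨅ y, ⨅ y', (S.mem x g ⊓ S.mem y h ⊓ S.mem y' h ⊓ S.bRel f x y ⊓ S.bRel f x y' ⇨
    S.eq y y')) ⊓
  (⨅ y, (S.mem y h ⇨ ⨆ x, S.mem x g ⊓ S.bRel f x y)) ⊓
  (⨅ y, ⨅ x, ⨅ x', (S.mem y h ⊓ S.mem x g ⊓ S.mem x' g ⊓ S.bRel f x y ⊓ S.bRel f x' y ⇨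
    S.eq x x'))

/-- the relation `f` (flag `false`) or its converse (flag `true`) -/
def bGraph : Bool → V → V → V → B
  | false, f, x, y => S.bRel f x y
  | true, f, x, y => S.bRel f y x

/-- `f` (flag `false`) or its converse (flag `true`) is a continuous map from the group `g` (with
addition modulo `m`) to the group `h` (with addition modulo `m'`) in the pro-countable topologies -/
def bContinuous (sw : Bool) (m m' : ℕ) (w g h f : V) : B :=
  ⨅ x, ⨅ y, (S.mem x g ⊓ S.mem y h ⊓ S.bGraph sw f x y ⇨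
    ⨅ l, (S.bSubgrp m' w h l ⊓ S.bCIdx m' w h l ⇨
      ⨆ k, S.bSubgrp m w g k ⊓ S.bCIdx m w g k ⊓
        ⨅ z, ⨅ u, ⨅ v, (S.mem z k ⊓ S.mem u g ⊓ S.mem v h ⊓ S.bAdd m w x z u ⊓
          S.bGraph sw f u v ⇨ ⨆ t, S.mem t l ⊓ S.bAdd m' w y t v)))

/-- the statement: the direct sum of `ω₁` copies of `ℤ/2` and the direct sum of `ω₁` copies of
`ℤ/3` are homeomorphic for their pro-countable topologies -/
def bHomeo : B :=
  ⨆ w, ⨆ g, ⨆ h, ⨆ f, S.bIsW w ⊓ S.bIsGrp 2 w g ⊓ S.bIsGrp 3 w h ⊓ S.bBijection g h f ⊓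
    S.bContinuous false 2 3 w g h f ⊓ S.bContinuous true 3 2 w h g f

end BStr

end Pool.Agent.H.MP_8ff4bd_gt.M3
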