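import Mathlib
import Pool.Agent.H.MP_8ff4bd_gt.M3.S.ZFCModel

/-!
The first-order sentence in the language of set theory which expresses that the direct sum of
`ω₁` copies of the cyclic group of order two and the direct sum of `ω₁` copies of the cyclic group
of order three are homeomorphic for their pro-countable topologies.

Variables are bound variables, named by their level: inside `n` quantifiers the variables are the
elements of `Fin n`, and the variable of the innermost quantifier is `Fin.last`.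
-/

set_option autoImplicit false

namespace Pool.Agent.H.MP_8ff4bd_gt.M3

open FirstOrder

/-- Formulas whose free variables are `n` levels. -/
abbrev Fm (n : ℕ) : Type := LSet.BoundedFormula Empty n

/-- a variable, seen inside one more quantifier -/
abbrev u1 {n : ℕ} (x : Fin n) : Fin (n + 1) := x.castSucc

/-- a variable, seen inside two more quantifiers -/
abbrev u2 {n : ℕ} (x : Fin n) : Fin (n + 2) := x.castSucc.castSucc

/-- a variable, seen inside three more quantifiers -/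
abbrev u3 {n : ℕ} (x : Fin n) : Fin (n + 3) := x.castSucc.castSucc.castSucc

/-- the formula `x ∈ y` -/
def fMem {n : ℕ} (x y : Fin n) : Fm n :=
  .rel (SetRel.mem : LSet.Relations 2) ![.var (.inr x), .var (.inr y)]

/-- the formula `x = y` -/
def fEq {n : ℕ} (x y : Fin n) : Fm n := .equal (.var (.inr x)) (.var (.inr y))

/-- universal quantification -/
def fAll {n : ℕ} (f : Fin (n + 1) → Fm (n + 1)) : Fm n := .all (f (Fin.last n))

/-- existential quantification -/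
def fEx {n : ℕ} (f : Fin (n + 1) → Fm (n + 1)) : Fm n := (f (Fin.last n)).ex

/-- finite disjunction -/
def fOr {n : ℕ} : ∀ m : ℕ, (Fin m → Fm n) → Fm n
  | 0, _ => ⊥
  | m + 1, f => fOr m (fun i => f i.castSucc) ⊔ f (Fin.last m)

/-- `x ⊆ y` -/
def fSubset {n : ℕ} (x y : Fin n) : Fm n := fAll fun z => (fMem z (u1 x)).imp (fMem z (u1 y))

/-- `x = ∅` -/
def fEmpty {n : ℕ} (x : Fin n) : Fm n := fAll fun z => (fMem z (u1 x)).not

/-- `z = {x}` -/
def fSing {n : ℕ} (z x : Fin n) : Fm n := fAll fun w => (fMem w (u1 z)).iff (fEq w (u1 x))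

/-- `z = {x, y}` -/
def fPair {n : ℕ} (z x y : Fin n) : Fm n :=
  fAll fun w => (fMem w (u1 z)).iff (fEq w (u1 x) ⊔ fEq w (u1 y))

/-- `z = (x, y) = {{x}, {x, y}}` -/
def fOPair {n : ℕ} (z x y : Fin n) : Fm n :=
  fEx fun a => fEx fun b => fSing (u1 a) (u2 x) ⊓ fPair b (u2 x) (u2 y) ⊓ fPair (u2 z) (u1 a) b

/-- `(x, y) ∈ f` -/
def fRel {n : ℕ} (f x y : Fin n) : Fm n :=
  fEx fun p => fMem p (u1 f) ⊓ fOPair p (u1 x) (u1 y)

/-- `z = y ∪ {t}` -/
def fInsert {n : ℕ} (z y t : Fin n) : Fm n :=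
  fAll fun w => (fMem w (u1 z)).iff (fMem w (u1 y) ⊔ fEq w (u1 t))

/-- the empty set belongs to `s` -/
def fHasEmpty {n : ℕ} (s : Fin n) : Fm n := fEx fun e => fMem e (u1 s) ⊓ fEmpty e

/-- `x` is finite -/
def fFin {n : ℕ} (x : Fin n) : Fm n :=
  fAll fun s => (fHasEmpty s ⊓
    fAll fun y => fAll fun t => (fMem (u1 y) (u2 s) ⊓ fMem t (u3 x)).imp
      (fEx fun z => fMem z (u3 s) ⊓ fInsert z (u2 y) (u1 t))).imp (fMem (u1 x) s)

/-- `s` contains `∅` and is closed under `n ↦ n ∪ {n}` -/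
def fInductive {n : ℕ} (s : Fin n) : Fm n :=
  fHasEmpty s ⊓
    fAll fun k => (fMem k (u1 s)).imp (fEx fun m => fMem m (u2 s) ⊓ fInsert m (u1 k) (u1 k))

/-- `o = ω` -/
def fOmega {n : ℕ} (o : Fin n) : Fm n :=
  fInductive o ⊓ fAll fun s => (fInductive s).imp (fSubset (u1 o) s)

/-- the relation `r` is total from `x` to `o` -/
def fTotal {n : ℕ} (x o r : Fin n) : Fm n :=
  fAll fun t => (fMem t (u1 x)).imp (fEx fun k => fMem k (u2 o) ⊓ fRel (u2 r) (u1 t) k)

/-- `x` is countable -/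
def fCtbl {n : ℕ} (x : Fin n) : Fm n :=
  fEx fun o => fEx fun r => fOmega (u1 o) ⊓ fTotal (u2 x) (u1 o) r ⊓
    fAll fun t => fAll fun t' => fAll fun k =>
      (fMem (u2 t) (u3 (u2 x)) ⊓ fMem (u1 t') (u3 (u2 x)) ⊓ fMem k (u3 (u1 o)) ⊓
        fRel (u3 r) (u2 t) k ⊓ fRel (u3 r) (u1 t') k).imp (fEq (u2 t) (u1 t'))

/-- `x` is transitive -/
def fTrans {n : ℕ} (x : Fin n) : Fm n := fAll fun y => (fMem y (u1 x)).imp (fSubset y (u1 x))

/-- `x` is an ordinal -/
def fOrd {n : ℕ} (x : Fin n) : Fm n := fTrans x ⊓ fAll fun y => (fMem y (u1 x)).imp (fTrans y)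

/-- `w` is the set of all countable ordinals -/
def fIsW {n : ℕ} (w : Fin n) : Fm n := fAll fun x => (fMem x (u1 w)).iff (fOrd x ⊓ fCtbl x)

/-- `x` is the von Neumann numeral `k` -/
def fNum : ∀ (_ : ℕ) {n : ℕ}, Fin n → Fm n
  | 0, _, x => fEmpty x
  | k + 1, _, x => fEx fun y => fNum k y ⊓ fInsert (u1 x) y y

/-- `x` is a von Neumann numeral smaller than `m` -/
def fLess (m : ℕ) {n : ℕ} (x : Fin n) : Fm n := fOr m fun i => fNum i x

/-- the value of the function `x` at `t` is the numeral `i` -/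
def fVal {n : ℕ} (x t : Fin n) (i : ℕ) : Fm n :=
  fEx fun k => fNum i k ⊓ fRel (u1 x) (u1 t) k

/-- `x` is a function from `w` to the numeral `m` -/
def fFun (m : ℕ) {n : ℕ} (w x : Fin n) : Fm n :=
  (fAll fun p => (fMem p (u1 x)).imp (fEx fun t => fEx fun k =>
    fMem (u1 t) (u3 w) ⊓ fLess m k ⊓ fOPair (u2 p) (u1 t) k)) ⊓
  (fAll fun t => (fMem t (u1 w)).imp (fEx fun k => fRel (u2 x) (u1 t) k)) ⊓
  (fAll fun t => fAll fun k => fAll fun k' =>
    (fRel (u3 x) (u2 t) (u1 k) ⊓ fRel (u3 x) (u2 t) k').imp (fEq (u1 k) k'))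

/-- the function `x` has finite support -/
def fFinSupp {n : ℕ} (w x : Fin n) : Fm n :=
  fEx fun s => fFin s ⊓ fAll fun t =>
    (fMem t (u2 w) ⊓ (fVal (u2 x) t 0).not).imp (fMem t (u1 s))

/-- `g` is the set of all finitely supported functions from `w` to `m` -/
def fIsGrp (m : ℕ) {n : ℕ} (w g : Fin n) : Fm n :=
  fAll fun x => (fMem x (u1 g)).iff (fFun m (u1 w) x ⊓ fFinSupp (u1 w) x)

/-- `z = x + y`, pointwise modulo `m` on `w` -/
def fAdd (m : ℕ) {n : ℕ} (w x y z : Fin n) : Fm n :=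
  fAll fun t => (fMem t (u1 w)).imp (fOr m fun i => fOr m fun j =>
    fVal (u1 x) t i ⊓ fVal (u1 y) t j ⊓ fVal (u1 z) t ((i + j : ℕ) % m))

/-- `l` is a subgroup of `k` -/
def fSubgrp (m : ℕ) {n : ℕ} (w k l : Fin n) : Fm n :=
  fSubset l k ⊓ (fAll fun o => (fMem o (u1 k) ⊓ fAdd m (u1 w) o o o).imp (fMem o (u1 l))) ⊓
    fAll fun x => fAll fun y => fAll fun z =>
      (fMem (u2 x) (u3 l) ⊓ fMem (u1 y) (u3 l) ⊓ fMem z (u3 k) ⊓
        fAdd m (u3 w) (u2 x) (u1 y) z).imp (fMem z (u3 l))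

/-- the subgroup `l` has countable index in `k` -/
def fCIdx (m : ℕ) {n : ℕ} (w k l : Fin n) : Fm n :=
  fEx fun o => fEx fun r => fOmega (u1 o) ⊓ fTotal (u2 k) (u1 o) r ⊓
    fAll fun x => fAll fun y => fAll fun i =>
      (fMem (u2 x) (u3 (u2 k)) ⊓ fMem (u1 y) (u3 (u2 k)) ⊓ fMem i (u3 (u1 o)) ⊓
        fRel (u3 r) (u2 x) i ⊓ fRel (u3 r) (u1 y) i).imp
      (fEx fun z => fMem z (u3 (u3 l)) ⊓ fAdd m (u3 (u3 w)) (u2 y) z (u3 x))

/-- `f` is a bijection between `g` and `h` -/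
def fBijection {n : ℕ} (g h f : Fin n) : Fm n :=
  (fAll fun x => (fMem x (u1 g)).imp (fEx fun y => fMem y (u2 h) ⊓ fRel (u2 f) (u1 x) y)) ⊓
  (fAll fun x => fAll fun y => fAll fun y' =>
    (fMem (u2 x) (u3 g) ⊓ fMem (u1 y) (u3 h) ⊓ fMem y' (u3 h) ⊓ fRel (u3 f) (u2 x) (u1 y) ⊓
      fRel (u3 f) (u2 x) y').imp (fEq (u1 y) y')) ⊓
  (fAll fun y => (fMem y (u1 h)).imp (fEx fun x => fMem x (u2 g) ⊓ fRel (u2 f) x (u1 y))) ⊓
  (fAll fun y => fAll fun x => fAll fun x' =>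
    (fMem (u2 y) (u3 h) ⊓ fMem (u1 x) (u3 g) ⊓ fMem x' (u3 g) ⊓ fRel (u3 f) (u1 x) (u2 y) ⊓
      fRel (u3 f) x' (u2 y)).imp (fEq (u1 x) x'))

/-- the relation `f` (flag `false`) or its converse (flag `true`) -/
def fGraph {n : ℕ} : Bool → Fin n → Fin n → Fin n → Fm n
  | false, f, x, y => fRel f x y
  | true, f, x, y => fRel f y x

/-- `k` is a subgroup of countable index of `g` -/
def fNhd (m : ℕ) {n : ℕ} (w g k : Fin n) : Fm n := fSubgrp m w g k ⊓ fCIdx m w g k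

/-- `f` maps the coset `x + k` into the coset `y + l` -/
def fMaps (sw : Bool) (m m' : ℕ) {n : ℕ} (w g h f x y k l : Fin n) : Fm n :=
  fAll fun z => fAll fun u => fAll fun v =>
    (fMem (u2 z) (u3 k) ⊓ fMem (u1 u) (u3 g) ⊓ fMem v (u3 h) ⊓
      fAdd m (u3 w) (u3 x) (u2 z) (u1 u) ⊓ fGraph sw (u3 f) (u1 u) v).imp
    (fEx fun t => fMem t (u3 (u1 l)) ⊓ fAdd m' (u3 (u1 w)) (u3 (u1 y)) t (u1 v))

/-- `f` is a continuous map from the group `g` to the group `h` in the pro-countable topologies -/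
def fContinuous (sw : Bool) (m m' : ℕ) {n : ℕ} (w g h f : Fin n) : Fm n :=
  fAll fun x => fAll fun y =>
    (fMem (u1 x) (u2 g) ⊓ fMem y (u2 h) ⊓ fGraph sw (u2 f) (u1 x) y).imp
    (fAll fun l => (fNhd m' (u3 w) (u3 h) l).imp
      (fEx fun k => fNhd m (u2 (u2 w)) (u2 (u2 g)) k ⊓
        fMaps sw m m' (u2 (u2 w)) (u2 (u2 g)) (u2 (u2 h)) (u2 (u2 f)) (u3 x) (u2 y) k (u1 l)))

/-- The sentence: there are the set `w` of all countable ordinals, the sets `g` and `h` of all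
finitely supported functions from `w` to `2` and to `3`, and a bijection `f` from `g` to `h` which
is continuous in both directions for the pro-countable topologies. -/
def homeoSentence : LSet.Sentence :=
  (fEx fun w => fEx fun g => fEx fun h => fEx fun f =>
    fIsW (u3 w) ⊓ fIsGrp 2 (u3 w) (u2 g) ⊓ fIsGrp 3 (u3 w) (u1 h) ⊓ fBijection (u2 g) (u1 h) f ⊓
      fContinuous false 2 3 (u3 w) (u2 g) (u1 h) f ⊓
      fContinuous true 3 2 (u3 w) (u1 h) (u2 g) f : Fm 0)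

end Pool.Agent.H.MP_8ff4bd_gt.M3
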