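import Pool.Agent.H.MP_8ff4bd_gt.M3.S.Los
import Pool.Agent.H.MP_8ff4bd_gt.M3.S.Notions
import Pool.Agent.H.MP_8ff4bd_gt.M3.S.Sentence

/-!
The B-value of the homeomorphism sentence.
-/

set_option autoImplicit false

namespace Pool.Agent.H.MP_8ff4bd_gt.M3

open FirstOrder
open scoped symmDiff

universe u v w

namespace BStr

variable {B : Type u} [CompleteBooleanAlgebra B] {V : Type v} (S : BStr B V)

section connectives

variable {α : Type w} {n : ℕ} (φ ψ : LSet.BoundedFormula α n) (v : α → V) (xs : Fin n → V)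

theorem bval_bot : S.bval (⊥ : LSet.BoundedFormula α n) v xs = ⊥ := rfl

theorem bval_imp : S.bval (φ.imp ψ) v xs = (S.bval φ v xs ⇨ S.bval ψ v xs) := rfl

theorem bval_not : S.bval φ.not v xs = (S.bval φ v xs)ᶜ := himp_bot _

theorem bval_inf : S.bval (φ ⊓ ψ) v xs = S.bval φ v xs ⊓ S.bval ψ v xs := by
  change ((S.bval φ v xs ⇨ (S.bval ψ v xs ⇨ ⊥)) ⇨ ⊥) = _
  rw [himp_bot, himp_bot, himp_eq, compl_sup, compl_compl, compl_compl, inf_comm]

theorem bval_sup : S.bval (φ ⊔ ψ) v xs = S.bval φ v xs ⊔ S.bval ψ v xs := by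
  change ((S.bval φ v xs ⇨ ⊥) ⇨ S.bval ψ v xs) = _
  rw [himp_bot, himp_eq, compl_compl, sup_comm]

theorem bval_iff : S.bval (φ.iff ψ) v xs = (S.bval φ v xs ⇔ S.bval ψ v xs) := by
  change S.bval ((φ.imp ψ) ⊓ (ψ.imp φ)) v xs = _
  rw [bval_inf, bval_imp, bval_imp, bihimp, inf_comm]

theorem bval_ex (φ : LSet.BoundedFormula α (n + 1)) :
    S.bval φ.ex v xs = ⨆ x, S.bval φ v (Fin.snoc xs x) := by
  change S.bval (φ.not.all).not v xs = _
  rw [bval_not]
  change (⨅ x, S.bval φ.not v (Fin.snoc xs x))ᶜ = _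
  simp only [bval_not, compl_iInf, compl_compl]

end connectives

variable {n : ℕ} (v : Empty → V) (xs : Fin n → V)

theorem bval_fMem (x y : Fin n) : S.bval (fMem x y) v xs = S.mem (xs x) (xs y) := rfl

theorem bval_fEq (x y : Fin n) : S.bval (fEq x y) v xs = S.eq (xs x) (xs y) := rfl

theorem bval_fAll (f : Fin (n + 1) → Fm (n + 1)) :
    S.bval (fAll f) v xs = ⨅ x, S.bval (f (Fin.last n)) v (Fin.snoc xs x) := rfl

theorem bval_fEx (f : Fin (n + 1) → Fm (n + 1)) :
    S.bval (fEx f) v xs = ⨆ x, S.bval (f (Fin.last n)) v (Fin.snoc xs x) := S.bval_ex v xs _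

theorem bval_fOr (m : ℕ) (f : Fin m → Fm n) :
    S.bval (fOr m f) v xs = ⨆ i, S.bval (f i) v xs := by
  induction m with
  | zero =>
    rw [iSup_of_empty]
    rfl
  | succ m ih =>
    rw [fOr, bval_sup, ih]
    apply le_antisymm
    · exact sup_le (iSup_le fun i => le_iSup (fun i => S.bval (f i) v xs) i.castSucc)
        (le_iSup (fun i => S.bval (f i) v xs) _)
    · refine iSup_le fun i => ?_
      induction i using Fin.lastCases with
      | last => exact le_sup_right
      | cast i => exact le_sup_of_le_left (le_iSup (fun i => S.bval (f i.castSucc) v xs) i)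

theorem snoc_u1 (x : Fin n) (a : V) : (Fin.snoc xs a : Fin (n + 1) → V) (u1 x) = xs x :=
  Fin.snoc_castSucc (α := fun _ => V) _ _ _

theorem snoc_last (a : V) : (Fin.snoc xs a : Fin (n + 1) → V) (Fin.last n) = a :=
  Fin.snoc_last (α := fun _ => V) _ _

attribute [local simp] bval_bot bval_imp bval_not bval_inf bval_sup bval_iff bval_fMem bval_fEq
  bval_fAll bval_fEx bval_fOr snoc_u1 snoc_last

theorem bval_fSubset (x y : Fin n) : S.bval (fSubset x y) v xs = S.bSubset (xs x) (xs y) := by
  simp [fSubset, bSubset]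

theorem bval_fEmpty (x : Fin n) : S.bval (fEmpty x) v xs = S.bEmpty (xs x) := by
  simp [fEmpty, bEmpty]

theorem bval_fSing (z x : Fin n) : S.bval (fSing z x) v xs = S.bSing (xs z) (xs x) := by
  simp [fSing, bSing]

theorem bval_fPair (z x y : Fin n) :
    S.bval (fPair z x y) v xs = S.bPair (xs z) (xs x) (xs y) := by
  simp [fPair, bPair]

attribute [local simp] bval_fSubset bval_fEmpty bval_fSing bval_fPair

theorem bval_fOPair (z x y : Fin n) :
    S.bval (fOPair z x y) v xs = S.bOPair (xs z) (xs x) (xs y) := by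
  simp [fOPair, bOPair]

attribute [local simp] bval_fOPair

theorem bval_fRel (f x y : Fin n) :
    S.bval (fRel f x y) v xs = S.bRel (xs f) (xs x) (xs y) := by
  simp [fRel, bRel]

theorem bval_fInsert (z y t : Fin n) :
    S.bval (fInsert z y t) v xs = S.bInsert (xs z) (xs y) (xs t) := by
  simp [fInsert, bInsert]

attribute [local simp] bval_fRel bval_fInsert

theorem bval_fHasEmpty (s : Fin n) :
    S.bval (fHasEmpty s) v xs = ⨆ e, S.mem e (xs s) ⊓ S.bEmpty e := by
  simp [fHasEmpty]

attribute [local simp] bval_fHasEmpty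

theorem bval_fFin (x : Fin n) : S.bval (fFin x) v xs = S.bFin (xs x) := by
  simp [fFin, bFin]

theorem bval_fInductive (x : Fin n) : S.bval (fInductive x) v xs = S.bInductive (xs x) := by
  simp [fInductive, bInductive]

attribute [local simp] bval_fFin bval_fInductive

theorem bval_fOmega (x : Fin n) : S.bval (fOmega x) v xs = S.bOmega (xs x) := by
  simp [fOmega, bOmega]

theorem bval_fTotal (x o r : Fin n) : S.bval (fTotal x o r) v xs =
    ⨅ t, (S.mem t (xs x) ⇨ ⨆ k, S.mem k (xs o) ⊓ S.bRel (xs r) t k) := by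
  simp [fTotal]

attribute [local simp] bval_fOmega bval_fTotal

theorem bval_fCtbl (x : Fin n) : S.bval (fCtbl x) v xs = S.bCtbl (xs x) := by
  simp [fCtbl, bCtbl]

theorem bval_fTrans (x : Fin n) : S.bval (fTrans x) v xs = S.bTrans (xs x) := by
  simp [fTrans, bTrans]

attribute [local simp] bval_fCtbl bval_fTrans

theorem bval_fOrd (x : Fin n) : S.bval (fOrd x) v xs = S.bOrd (xs x) := by
  simp [fOrd, bOrd]

attribute [local simp] bval_fOrd

theorem bval_fIsW (x : Fin n) : S.bval (fIsW x) v xs = S.bIsW (xs x) := by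
  simp [fIsW, bIsW]

theorem bval_fNum (k : ℕ) {n : ℕ} (xs : Fin n → V) (x : Fin n) :
    S.bval (fNum k x) v xs = S.bNum k (xs x) := by
  induction k generalizing n with
  | zero => simp [fNum, bNum]
  | succ k ih => simp [fNum, bNum, ih]

attribute [local simp] bval_fIsW bval_fNum

theorem bval_fLess (m : ℕ) (x : Fin n) : S.bval (fLess m x) v xs = S.bLess m (xs x) := by
  simp [fLess, bLess]

theorem bval_fVal (x t : Fin n) (i : ℕ) :
    S.bval (fVal x t i) v xs = S.bVal (xs x) (xs t) i := by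
  simp [fVal, bVal]

attribute [local simp] bval_fLess bval_fVal

theorem bval_fFun (m : ℕ) (w x : Fin n) : S.bval (fFun m w x) v xs = S.bFun m (xs w) (xs x) := by
  simp [fFun, bFun]

theorem bval_fFinSupp (w x : Fin n) :
    S.bval (fFinSupp w x) v xs = S.bFinSupp (xs w) (xs x) := by
  simp [fFinSupp, bFinSupp]

attribute [local simp] bval_fFun bval_fFinSupp

theorem bval_fIsGrp (m : ℕ) (w g : Fin n) :
    S.bval (fIsGrp m w g) v xs = S.bIsGrp m (xs w) (xs g) := by
  simp [fIsGrp, bIsGrp]

theorem bval_fAdd (m : ℕ) (w x y z : Fin n) :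
    S.bval (fAdd m w x y z) v xs = S.bAdd m (xs w) (xs x) (xs y) (xs z) := by
  simp [fAdd, bAdd]

attribute [local simp] bval_fIsGrp bval_fAdd

theorem bval_fSubgrp (m : ℕ) (w k l : Fin n) :
    S.bval (fSubgrp m w k l) v xs = S.bSubgrp m (xs w) (xs k) (xs l) := by
  simp [fSubgrp, bSubgrp]

theorem bval_fCIdx (m : ℕ) (w k l : Fin n) :
    S.bval (fCIdx m w k l) v xs = S.bCIdx m (xs w) (xs k) (xs l) := by
  simp [fCIdx, bCIdx]

theorem bval_fBijection (g h f : Fin n) :
    S.bval (fBijection g h f) v xs = S.bBijection (xs g) (xs h) (xs f) := by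
  simp [fBijection, bBijection]

theorem bval_fGraph (b : Bool) (f x y : Fin n) :
    S.bval (fGraph b f x y) v xs = S.bGraph b (xs f) (xs x) (xs y) := by
  cases b <;> simp [fGraph, bGraph]

attribute [local simp] bval_fSubgrp bval_fCIdx bval_fBijection bval_fGraph

theorem bval_fContinuous (sw : Bool) (m m' : ℕ) (w g h f : Fin n) :
    S.bval (fContinuous sw m m' w g h f) v xs =
      S.bContinuous sw m m' (xs w) (xs g) (xs h) (xs f) := by
  simp [fContinuous, fNhd, fMaps, bContinuous]

attribute [local simp] bval_fContinuous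

/-- The value of the sentence. -/
theorem bval_homeoSentence (v : Empty → V) (xs : Fin 0 → V) :
    S.bval homeoSentence v xs = S.bHomeo := by
  simp only [homeoSentence, bHomeo, bval_fEx, bval_inf, bval_fIsW, bval_fIsGrp, bval_fBijection,
    bval_fContinuous, snoc_u1, snoc_last]

end BStr

end Pool.Agent.H.MP_8ff4bd_gt.M3
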