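import Pool.Agent.H.MP_8ff4bd_gt.M3.S.Plain

/-!
The statement of the first question inside an arbitrary epsilon-structure `(M, E)`.

A set `u` is a neighbourhood of `0` for the finest `ℵ₀`-bounded group topology of an abelian group
`k` if and only if it contains the first set `v 0` of a sequence `v` of subsets of `k` such that
`v (n + 1) - v (n + 1) ⊆ v n` and such that for every `n` the group `k` is the union of countably
many sets whose differences are in `v n`.
-/

set_option autoImplicit false

namespace Pool.Agent.H.MP_8ff4bd_gt.M3.Plain

universe u

variable {M : Type u} (E : M → M → Prop)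

/-- the set with index `n` of the sequence `v` of subsets of the group `k` is such that `k` is the
union of countably many sets with differences in this set: there is a relation `r` between `k` and
`ω` which is total on `k` and such that elements of `k` related to the same natural number differ
by an element of the set with index `n` -/
def IsGIdx (m : ℕ) (w k o v n : M) : Prop :=
  ∃ r, (∀ x, E x k → ∃ i, E i o ∧ InRel E r x i) ∧
    ∀ x y i, E x k → E y k → E i o → InRel E r x i → InRel E r y i →
      ∃ z, E z k ∧ InRel E v n z ∧ IsSum E m w y z x

/-- the sequence `v` of subsets of the group `k` satisfies `v (n + 1) - v (n + 1) ⊆ v n`, and for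
every `n` the group is the union of countably many sets with differences in `v n` -/
def IsGSeq (m : ℕ) (w k o v : M) : Prop :=
  (∀ n n' x y z, E n o → E n' o → IsInsert E n' n n → E x k → E y k → E z k →
    InRel E v n' x → InRel E v n' y → IsSum E m w z y x → InRel E v n z) ∧
  ∀ n, E n o → IsGIdx E m w k o v n

/-- `u` contains a neighbourhood of `0` of the group `k` for the finest `ℵ₀`-bounded group
topology -/
def IsGNbhd (m : ℕ) (w k u : M) : Prop :=
  ∃ o v e, IsOmega E o ∧ IsEmp E e ∧ IsGSeq E m w k o v ∧ ∀ x, E x k → InRel E v e x → E x u

/-- `f` (flag `false`) or its converse (flag `true`) is a continuous map from the group `g` (with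
addition modulo `m`) to the group `h` (with addition modulo `m'`) in the finest `ℵ₀`-bounded group
topologies: if `f x = y`, then for every neighbourhood `l` of `0` in `h` there is a neighbourhood
`k` of `0` in `g` such that `f` maps `x + k` into `y + l` -/
def IsGCont (sw : Bool) (m m' : ℕ) (w g h f : M) : Prop :=
  ∀ x y, E x g → E y h → GraphOf E sw f x y →
    ∀ l, IsGNbhd E m' w h l → ∃ k, IsGNbhd E m w g k ∧
      ∀ z x' y', E z g → E z k → E x' g → E y' h → IsSum E m w x z x' → GraphOf E sw f x' y' →
        ∃ t, E t h ∧ E t l ∧ IsSum E m' w y t y'

/-- The statement of the first question in `(M, E)`: there are the set `w` of all countable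
ordinals, the sets `g` and `h` of all finitely supported functions from `w` to `2` and to `3`, and a
bijection `f` from `g` to `h` which is continuous in both directions for the finest `ℵ₀`-bounded
group topologies. -/
def GHomeomorphic : Prop :=
  ∃ w g h f, IsW E w ∧ IsGrp E 2 w g ∧ IsGrp E 3 w h ∧ IsBij E g h f ∧
    IsGCont E false 2 3 w g h f ∧ IsGCont E true 3 2 w h g f

end Pool.Agent.H.MP_8ff4bd_gt.M3.Plain
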