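import Pool.Agent.H.MP_8ff4bd_gt.M3.S.Notions

/-!
The set-theoretic notions of the first question (finest `ℵ₀`-bounded group topology) in an
arbitrary B-valued structure.  All quantifiers range over the whole structure.
-/

set_option autoImplicit false

namespace Pool.Agent.H.MP_8ff4bd_gt.M3

open scoped symmDiff

universe u v

namespace BStr

variable {B : Type u} [CompleteBooleanAlgebra B] {V : Type v} (S : BStr B V)

/-- the set with index `n` of the sequence `v` (a set of pairs) of subsets of the group `k` has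
countably many translates covering `k`: there is a relation `r` between `k` and `ω` which is total
on `k` and such that elements of `k` related to the same natural number differ by an element of
the set with index `n` -/
def bGIdx (m : ℕ) (w k o v n : V) : B :=
  ⨆ r, (⨅ x, (S.mem x k ⇨ ⨆ i, S.mem i o ⊓ S.bRel r x i)) ⊓
    ⨅ x, ⨅ y, ⨅ i, (S.mem x k ⊓ S.mem y k ⊓ S.mem i o ⊓ S.bRel r x i ⊓ S.bRel r y i ⇨
      ⨆ z, S.mem z k ⊓ S.bRel v n z ⊓ S.bAdd m w y z x)

/-- the sequence `v` of subsets of the group `k` satisfies `v (n + 1) - v (n + 1) ⊆ v n`, and for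
every `n` the group is the union of countably many sets with differences in `v n` -/
def bGSeq (m : ℕ) (w k o v : V) : B :=
  (⨅ n, ⨅ n', ⨅ x, ⨅ y, ⨅ z, (S.mem n o ⊓ S.mem n' o ⊓ S.bInsert n' n n ⊓ S.mem x k ⊓
    S.mem y k ⊓ S.mem z k ⊓ S.bRel v n' x ⊓ S.bRel v n' y ⊓ S.bAdd m w z y x ⇨ S.bRel v n z)) ⊓
    ⨅ n, (S.mem n o ⇨ S.bGIdx m w k o v n)

/-- `u` contains a neighbourhood of `0` of the group `k` for the finest `ℵ₀`-bounded group
topology -/
def bGNbhd (m : ℕ) (w k u : V) : B :=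
  ⨆ o, ⨆ v, ⨆ e, S.bOmega o ⊓ S.bEmpty e ⊓ S.bGSeq m w k o v ⊓
    ⨅ x, (S.mem x k ⊓ S.bRel v e x ⇨ S.mem x u)

/-- `f` (flag `false`) or its converse (flag `true`) is a continuous map from the group `g` (with
addition modulo `m`) to the group `h` (with addition modulo `m'`) in the finest `ℵ₀`-bounded group
topologies -/
def bGContinuous (sw : Bool) (m m' : ℕ) (w g h f : V) : B :=
  ⨅ x, ⨅ y, (S.mem x g ⊓ S.mem y h ⊓ S.bGraph sw f x y ⇨
    ⨅ u, (S.bGNbhd m' w h u ⇨
      ⨆ u', S.bGNbhd m w g u' ⊓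
        ⨅ z, ⨅ x', ⨅ y', (S.mem z g ⊓ S.mem z u' ⊓ S.mem x' g ⊓ S.mem y' h ⊓
          S.bAdd m w x z x' ⊓ S.bGraph sw f x' y' ⇨
            ⨆ t, S.mem t h ⊓ S.mem t u ⊓ S.bAdd m' w y t y')))

/-- the statement: the direct sum of `ω₁` copies of `ℤ/2` and the direct sum of `ω₁` copies of
`ℤ/3` are homeomorphic for their finest `ℵ₀`-bounded group topologies -/
def bGHomeo : B :=
  ⨆ w, ⨆ g, ⨆ h, ⨆ f, S.bIsW w ⊓ S.bIsGrp 2 w g ⊓ S.bIsGrp 3 w h ⊓ S.bBijection g h f ⊓
    S.bGContinuous false 2 3 w g h f ⊓ S.bGContinuous true 3 2 w h g f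

end BStr

end Pool.Agent.H.MP_8ff4bd_gt.M3
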