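import Pool.Agent.H.MP_8ff4bd_gt.M3.S.Sentence

/-!
The first-order sentence of the first question: the direct sums of `ω₁` copies of the cyclic groups
of order two and three are homeomorphic for their finest `ℵ₀`-bounded group topologies.
-/

set_option autoImplicit false

namespace Pool.Agent.H.MP_8ff4bd_gt.M3

open FirstOrder

/-- the set with index `i` of the sequence `v` of subsets of the group `k` has countably many
translates covering `k` -/
def fGIdx (m : ℕ) {n : ℕ} (w k o v i : Fin n) : Fm n :=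
  fEx fun r => fTotal (u1 k) (u1 o) r ⊓
    fAll fun x => fAll fun y => fAll fun j =>
      (fMem (u2 x) (u3 (u1 k)) ⊓ fMem (u1 y) (u3 (u1 k)) ⊓ fMem j (u3 (u1 o)) ⊓
        fRel (u3 r) (u2 x) j ⊓ fRel (u3 r) (u1 y) j).imp
      (fEx fun z => fMem z (u2 (u3 k)) ⊓ fRel (u2 (u3 v)) (u2 (u3 i)) z ⊓
        fAdd m (u2 (u3 w)) (u2 y) z (u3 x))

/-- `v (i + 1) - v (i + 1) ⊆ v i` for all `i` in `o`, where `v` is a sequence of subsets of the
group `k` -/
def fGStep (m : ℕ) {n : ℕ} (w k o v : Fin n) : Fm n :=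
  fAll fun i => fAll fun i' => fAll fun x => fAll fun y => fAll fun z =>
    (fMem (u2 (u2 i)) (u2 (u3 o)) ⊓ fMem (u3 i') (u2 (u3 o)) ⊓
      fInsert (u3 i') (u2 (u2 i)) (u2 (u2 i)) ⊓ fMem (u2 x) (u2 (u3 k)) ⊓
      fMem (u1 y) (u2 (u3 k)) ⊓ fMem z (u2 (u3 k)) ⊓ fRel (u2 (u3 v)) (u3 i') (u2 x) ⊓
      fRel (u2 (u3 v)) (u3 i') (u1 y) ⊓ fAdd m (u2 (u3 w)) z (u1 y) (u2 x)).imp
    (fRel (u2 (u3 v)) (u2 (u2 i)) z)

/-- the sequence `v` of subsets of the group `k` satisfies `v (i + 1) - v (i + 1) ⊆ v i`, and for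
every `i` the group is the union of countably many sets with differences in `v i` -/
def fGSeq (m : ℕ) {n : ℕ} (w k o v : Fin n) : Fm n :=
  fGStep m w k o v ⊓
    fAll fun i => (fMem i (u1 o)).imp (fGIdx m (u1 w) (u1 k) (u1 o) (u1 v) i)

/-- `u` contains a neighbourhood of `0` of the group `k` for the finest `ℵ₀`-bounded group
topology -/
def fGNbhd (m : ℕ) {n : ℕ} (w k u : Fin n) : Fm n :=
  fEx fun o => fEx fun v => fEx fun e =>
    fOmega (u2 o) ⊓ fEmpty e ⊓ fGSeq m (u3 w) (u3 k) (u2 o) (u1 v) ⊓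
      fAll fun x => (fMem x (u1 (u3 k)) ⊓ fRel (u2 v) (u1 e) x).imp (fMem x (u1 (u3 u)))

/-- `f` maps the translate `x + k` into the translate `y + l` -/
def fGMaps (sw : Bool) (m m' : ℕ) {n : ℕ} (w g h f x y k l : Fin n) : Fm n :=
  fAll fun z => fAll fun x' => fAll fun y' =>
    (fMem (u2 z) (u3 g) ⊓ fMem (u2 z) (u3 k) ⊓ fMem (u1 x') (u3 g) ⊓ fMem y' (u3 h) ⊓
      fAdd m (u3 w) (u3 x) (u2 z) (u1 x') ⊓ fGraph sw (u3 f) (u1 x') y').imp
    (fEx fun t => fMem t (u3 (u1 h)) ⊓ fMem t (u3 (u1 l)) ⊓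
      fAdd m' (u3 (u1 w)) (u3 (u1 y)) t (u1 y'))

/-- `f` is a continuous map from the group `g` to the group `h` in the finest `ℵ₀`-bounded group
topologies -/
def fGContinuous (sw : Bool) (m m' : ℕ) {n : ℕ} (w g h f : Fin n) : Fm n :=
  fAll fun x => fAll fun y =>
    (fMem (u1 x) (u2 g) ⊓ fMem y (u2 h) ⊓ fGraph sw (u2 f) (u1 x) y).imp
    (fAll fun u => (fGNbhd m' (u3 w) (u3 h) u).imp
      (fEx fun u' => fGNbhd m (u2 (u2 w)) (u2 (u2 g)) u' ⊓
        fGMaps sw m m' (u2 (u2 w)) (u2 (u2 g)) (u2 (u2 h)) (u2 (u2 f)) (u3 x) (u2 y) u' (u1 u)))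

/-- The sentence: there are the set `w` of all countable ordinals, the sets `g` and `h` of all
finitely supported functions from `w` to `2` and to `3`, and a bijection `f` from `g` to `h` which
is continuous in both directions for the finest `ℵ₀`-bounded group topologies. -/
def gHomeoSentence : LSet.Sentence :=
  (fEx fun w => fEx fun g => fEx fun h => fEx fun f =>
    fIsW (u3 w) ⊓ fIsGrp 2 (u3 w) (u2 g) ⊓ fIsGrp 3 (u3 w) (u1 h) ⊓ fBijection (u2 g) (u1 h) f ⊓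
      fGContinuous false 2 3 (u3 w) (u2 g) (u1 h) f ⊓
      fGContinuous true 3 2 (u3 w) (u1 h) (u2 g) f : Fm 0)

end Pool.Agent.H.MP_8ff4bd_gt.M3
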