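import Pool.Agent.H.MP_8ff4bd_gt.M3.S.SentenceB
import Pool.Agent.H.MP_8ff4bd_gt.M3.S.Notions1
import Pool.Agent.H.MP_8ff4bd_gt.M3.S.Sentence1

/-!
The B-value of the sentence of the first question.
-/

set_option autoImplicit false

namespace Pool.Agent.H.MP_8ff4bd_gt.M3

open FirstOrder
open scoped symmDiff

universe u v w

namespace BStr

variable {B : Type u} [CompleteBooleanAlgebra B] {V : Type v} (S : BStr B V)
variable {n : ℕ} (v : Empty → V) (xs : Fin n → V)

attribute [local simp] bval_bot bval_imp bval_not bval_inf bval_sup bval_iff bval_fMem bval_fEq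
  bval_fAll bval_fEx bval_fOr snoc_u1 snoc_last bval_fSubset bval_fEmpty bval_fInsert bval_fRel
  bval_fOmega bval_fTotal bval_fIsW bval_fIsGrp bval_fAdd bval_fBijection bval_fGraph

theorem bval_fGIdx (m : ℕ) (w k o v' i : Fin n) :
    S.bval (fGIdx m w k o v' i) v xs = S.bGIdx m (xs w) (xs k) (xs o) (xs v') (xs i) := by
  simp [fGIdx, bGIdx]

theorem bval_fGSeq (m : ℕ) (w k o v' : Fin n) :
    S.bval (fGSeq m w k o v') v xs = S.bGSeq m (xs w) (xs k) (xs o) (xs v') := by
  simp [fGSeq, fGStep, bGSeq, bval_fGIdx]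

theorem bval_fGNbhd (m : ℕ) (w k u : Fin n) :
    S.bval (fGNbhd m w k u) v xs = S.bGNbhd m (xs w) (xs k) (xs u) := by
  simp [fGNbhd, bGNbhd, bval_fGSeq]

theorem bval_fGContinuous (sw : Bool) (m m' : ℕ) (w g h f : Fin n) :
    S.bval (fGContinuous sw m m' w g h f) v xs =
      S.bGContinuous sw m m' (xs w) (xs g) (xs h) (xs f) := by
  simp [fGContinuous, fGMaps, bGContinuous, bval_fGNbhd]

/-- The value of the sentence. -/
theorem bval_gHomeoSentence (v : Empty → V) (xs : Fin 0 → V) :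
    S.bval gHomeoSentence v xs = S.bGHomeo := by
  simp only [gHomeoSentence, bGHomeo, bval_fEx, bval_inf, bval_fIsW, bval_fIsGrp, bval_fBijection,
    bval_fGContinuous, snoc_u1, snoc_last]

end BStr

end Pool.Agent.H.MP_8ff4bd_gt.M3
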