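import Pool.Agent.H.MP_8ff4bd_gt.M3.S.PlainB
import Pool.Agent.H.MP_8ff4bd_gt.M3.S.SentenceB1
import Pool.Agent.H.MP_8ff4bd_gt.M3.S.Plain1

/-!
The plain form of the sentence of the first question.
-/

set_option autoImplicit false

namespace Pool.Agent.H.MP_8ff4bd_gt.M3

open FirstOrder Plain
open scoped symmDiff

universe u

variable {M : Type u} (E : M → M → Prop)

theorem rel_gIdx (m : ℕ) (w k o v n : M) :
    (relStr E).bGIdx m w k o v n ↔ IsGIdx E m w k o v n := by
  simp only [BStr.bGIdx, IsGIdx, iInf_Prop_eq, iSup_Prop_eq, inf_Prop_eq, himp_iff_imp,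
    relStr_mem, rel_inRel, rel_add, and_assoc, and_imp]

theorem rel_gSeq (m : ℕ) (w k o v : M) :
    (relStr E).bGSeq m w k o v ↔ IsGSeq E m w k o v := by
  simp only [BStr.bGSeq, IsGSeq, iInf_Prop_eq, inf_Prop_eq, himp_iff_imp,
    relStr_mem, rel_inRel, rel_add, rel_insert, rel_gIdx, and_imp]

theorem rel_gNbhd (m : ℕ) (w k u : M) :
    (relStr E).bGNbhd m w k u ↔ IsGNbhd E m w k u := by
  simp only [BStr.bGNbhd, IsGNbhd, iInf_Prop_eq, iSup_Prop_eq, inf_Prop_eq, himp_iff_imp,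
    relStr_mem, rel_inRel, rel_omega, rel_emp, rel_gSeq, and_assoc, and_imp]

theorem rel_gCont (b : Bool) (m m' : ℕ) (w g h f : M) :
    (relStr E).bGContinuous b m m' w g h f ↔ IsGCont E b m m' w g h f := by
  simp only [BStr.bGContinuous, IsGCont, iInf_Prop_eq, iSup_Prop_eq, inf_Prop_eq, himp_iff_imp,
    relStr_mem, rel_graph, rel_gNbhd, rel_add, and_assoc, and_imp]

theorem bGHomeo_relStr : (relStr E).bGHomeo ↔ GHomeomorphic E := by
  simp only [BStr.bGHomeo, GHomeomorphic, iSup_Prop_eq, inf_Prop_eq, rel_isW, rel_isGrp, rel_bij,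
    rel_gCont, and_assoc]

/-- The sentence says in every structure what it should. -/
theorem sat_gHomeoSentence_iff : Sat E gHomeoSentence ↔ GHomeomorphic E := by
  rw [sat_iff_bval, BStr.bval_gHomeoSentence, bGHomeo_relStr]

end Pool.Agent.H.MP_8ff4bd_gt.M3
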