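import Mathlib

/-!
B-valued epsilon-structures and the B-valued axioms of ZFC.
-/

set_option autoImplicit false

namespace Pool.Agent.H.MP_8ff4bd_gt.M3

open scoped symmDiff

universe u v

/-- A `B`-valued epsilon-structure. -/
structure BStr (B : Type u) [CompleteBooleanAlgebra B] (V : Type v) where
  /-- value of `x ∈ y` -/
  mem : V → V → B
  /-- value of `x = y` -/
  eq : V → V → B
  eq_refl : ∀ x, eq x x = ⊤
  eq_symm : ∀ x y, eq x y = eq y x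
  eq_trans : ∀ x y z, eq x y ⊓ eq y z ≤ eq x z
  mem_congr_left : ∀ x x' y, eq x x' ⊓ mem x y ≤ mem x' y
  mem_congr_right : ∀ x y y', eq y y' ⊓ mem x y ≤ mem x y'

namespace BStr

variable {B : Type u} [CompleteBooleanAlgebra B] {V : Type v} (S : BStr B V)

/-- A `B`-valued predicate compatible with the equality. -/
def IsExt (φ : V → B) : Prop := ∀ x y, S.eq x y ⊓ φ x ≤ φ y

/-- The axioms of ZFC in the `B`-valued structure, with comprehension and collection for arbitrary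
`B`-valued predicates compatible with equality, and the maximum principle. -/
structure BZFC : Prop where
  /-- the maximum principle -/
  full : ∀ φ : V → B, S.IsExt φ → ∃ x, φ x = ⨆ y, φ y
  ext : ∀ x y, (⨅ z, (S.mem z x ⇔ S.mem z y)) ≤ S.eq x y
  found : ∀ x, (⨆ y, S.mem y x) ≤ ⨆ y, S.mem y x ⊓ ⨅ z, (S.mem z x ⇨ (S.mem z y)ᶜ)
  pair : ∀ x y, ∃ z, ∀ w, S.mem w z = S.eq w x ⊔ S.eq w y
  union : ∀ x, ∃ u, ∀ w, S.mem w u = ⨆ y, S.mem y x ⊓ S.mem w y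
  power : ∀ x, ∃ p, ∀ w, S.mem w p = ⨅ z, (S.mem z w ⇨ S.mem z x)
  infinity : ∃ I e, S.mem e I = ⊤ ∧ (∀ z, S.mem z e = ⊥) ∧
    ∀ x, ∃ s, S.mem x I ≤ S.mem s I ∧ ∀ w, S.mem w s = S.mem w x ⊔ S.eq w x
  compr : ∀ φ : V → B, S.IsExt φ → ∀ a, ∃ b, ∀ x, S.mem x b = S.mem x a ⊓ φ x
  coll : ∀ φ : V → V → B, (∀ y, S.IsExt fun x => φ x y) → (∀ x, S.IsExt fun y => φ x y) →
    ∀ a, ∃ b, ∀ x, S.mem x a ⊓ (⨆ y, φ x y) ≤ ⨆ y, S.mem y b ⊓ φ x y
  /-- choice: if the members of `a` are nonempty and pairwise disjoint then there is `c` meeting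
  every member of `a` in exactly one point -/
  choice : ∀ a, ∃ c,
    (⨅ x, (S.mem x a ⇨ ⨆ y, S.mem y x)) ⊓
      (⨅ x, ⨅ y, ⨅ z, (S.mem x a ⊓ S.mem y a ⊓ S.mem z x ⊓ S.mem z y ⇨ S.eq x y)) ≤
    ⨅ x, (S.mem x a ⇨ ⨆ y, (S.mem y x ⊓ S.mem y c ⊓
      ⨅ z, (S.mem z x ⊓ S.mem z c ⇨ S.eq z y)))

end BStr

end Pool.Agent.H.MP_8ff4bd_gt.M3
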