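import Pool.Agent.H.MP_8ff4bd_gt.M3.S.Sentence

/-!
The theory ZFC as a set of sentences of the language of set theory.
-/

set_option autoImplicit false

namespace Pool.Agent.H.MP_8ff4bd_gt.M3

open FirstOrder

/-- extensionality: sets with the same elements are equal -/
def axExt : LSet.Sentence :=
  (fAll fun x => fAll fun y =>
    (fAll fun z => (fMem z (u2 x)).iff (fMem z (u1 y))).imp (fEq (u1 x) y) : Fm 0)

/-- foundation: every nonempty set has an element disjoint from it -/
def axFound : LSet.Sentence :=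
  (fAll fun x => (fEx fun y => fMem y (u1 x)).imp
    (fEx fun y => fMem y (u1 x) ⊓ fAll fun z => (fMem z (u2 x)).imp (fMem z (u1 y)).not) : Fm 0)

/-- pairing -/
def axPair : LSet.Sentence :=
  (fAll fun x => fAll fun y => fEx fun z => fPair z (u2 x) (u1 y) : Fm 0)

/-- union -/
def axUnion : LSet.Sentence :=
  (fAll fun x => fEx fun u => fAll fun w =>
    (fMem w (u1 u)).iff (fEx fun y => fMem y (u3 x) ⊓ fMem (u1 w) y) : Fm 0)

/-- power set -/
def axPower : LSet.Sentence :=
  (fAll fun x => fEx fun p => fAll fun w => (fMem w (u1 p)).iff (fSubset w (u2 x)) : Fm 0)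

/-- infinity: there is a set which contains the empty set and is closed under `n ↦ n ∪ {n}` -/
def axInfinity : LSet.Sentence := (fEx fun i => fInductive i : Fm 0)

/-- choice: for every set of nonempty pairwise disjoint sets there is a set which has exactly one
element in common with each of them -/
def axChoice : LSet.Sentence :=
  (fAll fun a =>
    ((fAll fun x => (fMem x (u1 a)).imp (fEx fun y => fMem y (u1 x))) ⊓
      (fAll fun x => fAll fun y => fAll fun z =>
        (fMem (u2 x) (u3 a) ⊓ fMem (u1 y) (u3 a) ⊓ fMem z (u2 x) ⊓ fMem z (u1 y)).imp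
          (fEq (u2 x) (u1 y)))).imp
    (fEx fun c => fAll fun x => (fMem x (u2 a)).imp
      (fEx fun y => (fMem y (u1 x) ⊓ fMem y (u2 c)) ⊓
        fAll fun z => (fMem z (u2 x) ⊓ fMem z (u3 c)).imp (fEq z (u1 y)))) : Fm 0)

/-- the formula `φ` with its variables replaced by the given levels -/
def fSub {k n : ℕ} (φ : LSet.Formula (Fin k)) (σ : Fin k → Fin n) : Fm n :=
  FirstOrder.Language.BoundedFormula.relabel (fun i => Sum.inr (σ i)) φ

/-- the instance of the separation scheme for the formula `φ (p₁, ..., pₙ, x)`: for all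
`p₁, ..., pₙ` and all `a` there is `b` whose elements are the elements `x` of `a` with
`φ (p₁, ..., pₙ, x)` -/
def axSep (n : ℕ) (φ : LSet.Formula (Fin (n + 1))) : LSet.Sentence :=
  FirstOrder.Language.BoundedFormula.alls
    (fAll fun a => fEx fun b => fAll fun x =>
      (fMem x (u1 b)).iff (fMem x (u2 a) ⊓ fSub φ (Fin.snoc (fun i => u3 i) x)) : Fm n)

/-- the instance of the replacement scheme for the formula `φ (p₁, ..., pₙ, x, y)`: for all
`p₁, ..., pₙ` and all `a`, if for every `x` in `a` there is exactly one `y` with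
`φ (p₁, ..., pₙ, x, y)`, then there is `b` whose elements are these `y` -/
def axRepl (n : ℕ) (φ : LSet.Formula (Fin (n + 2))) : LSet.Sentence :=
  FirstOrder.Language.BoundedFormula.alls
    (fAll fun a =>
      (fAll fun x => (fMem x (u1 a)).imp (fEx fun y =>
        fSub φ (Fin.snoc (Fin.snoc (fun i => u3 i) (u1 x)) y) ⊓
          fAll fun z => (fSub φ (Fin.snoc (Fin.snoc (fun i => u1 (u3 i)) (u2 x)) z)).imp
            (fEq z (u1 y)))).imp
      (fEx fun b => fAll fun y => (fMem y (u1 b)).iff (fEx fun x =>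
        fMem x (u3 a) ⊓ fSub φ (Fin.snoc (Fin.snoc (fun i => u1 (u3 i)) x) (u1 y)))) : Fm n)

/-- The theory ZFC. -/
def ZFC : LSet.Theory :=
  {axExt, axFound, axPair, axUnion, axPower, axInfinity, axChoice} ∪
    {ψ | ∃ n φ, ψ = axSep n φ} ∪ {ψ | ∃ n φ, ψ = axRepl n φ}

end Pool.Agent.H.MP_8ff4bd_gt.M3
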