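import Pool.Agent.H.MP_8ff4bd_gt.M3.S.PlainB
import Pool.Agent.H.MP_8ff4bd_gt.M3.S.Theory

/-!
Epsilon-structures which are models of ZFC satisfy the theory ZFC.
-/

set_option autoImplicit false

namespace Pool.Agent.H.MP_8ff4bd_gt.M3

open FirstOrder
open scoped symmDiff

universe u v w

variable {M : Type u} (E : M → M → Prop)

theorem bval_fSub_iff {k n : ℕ} (φ : LSet.Formula (Fin k)) (σ : Fin k → Fin n) (v : Empty → M)
    (xs : Fin n → M) :
    (relStr E).bval (fSub φ σ) v xs ↔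
      @FirstOrder.Language.Formula.Realize LSet M (epsStr E) (Fin k) φ (xs ∘ σ) := by
  let _ := epsStr E
  rw [← realize_iff_bval]
  unfold fSub
  refine (@FirstOrder.Language.BoundedFormula.realize_relabel LSet M (epsStr E) _ _ n 0 φ
    (fun i => Sum.inr (σ i)) v xs).trans ?_
  unfold FirstOrder.Language.Formula.Realize
  refine iff_of_eq ?_
  congr 1
  exact Subsingleton.elim _ _

theorem comp_snoc' {k n : ℕ} (xs : Fin n → M) (σ : Fin k → Fin n) (x : Fin n) :
    xs ∘ (Fin.snoc σ x : Fin (k + 1) → Fin n) = Fin.snoc (xs ∘ σ) (xs x) :=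
  Fin.comp_snoc xs σ x

theorem comp_u1 {n k : ℕ} (xs : Fin n → M) (a : M) (σ : Fin k → Fin n) :
    (Fin.snoc xs a : Fin (n + 1) → M) ∘ (fun i => u1 (σ i)) = xs ∘ σ := by
  funext i
  exact BStr.snoc_u1 xs (σ i) a

theorem sat_alls {n : ℕ} (φ : Fm n) : Sat E φ.alls ↔ ∀ xs, (relStr E).bval φ default xs := by
  let _ := epsStr E
  refine FirstOrder.Language.BoundedFormula.realize_alls.trans ?_
  exact forall_congr' fun xs => realize_iff_bval E φ _ xs

variable {E}

/-- parametrised classes are definable -/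
theorem definable_param {n k : ℕ} (φ : LSet.Formula (Fin (n + k))) (p : Fin n → M) :
    @Set.Definable M Set.univ LSet (epsStr E) (Fin k)
      {x | @FirstOrder.Language.Formula.Realize LSet M (epsStr E) (Fin (n + k)) φ
        (Fin.append p x)} := by
  let _ := epsStr E
  rw [Set.definable_iff_exists_formula_sum]
  refine ⟨φ.relabel (Fin.addCases (fun i => Sum.inl ⟨p i, trivial⟩) (fun j => Sum.inr j)), ?_⟩
  ext x
  simp only [Set.mem_setOf_eq]
  refine Iff.symm (FirstOrder.Language.Formula.realize_relabel.trans (iff_of_eq ?_))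
  congr 1
  funext i
  induction i using Fin.addCases with
  | left i => simp
  | right i => simp

theorem snoc_eq_append {n : ℕ} (p : Fin n → M) (x : M) :
    (Fin.snoc p x : Fin (n + 1) → M) = Fin.append p (fun _ => x) := by
  rw [Fin.snoc_eq_append]
  congr 1
  funext i
  exact Fin.fin_one_eq_zero i ▸ rfl

theorem snoc_snoc_eq_append {n : ℕ} (p : Fin n → M) (x y : M) :
    (Fin.snoc (Fin.snoc p x : Fin (n + 1) → M) y : Fin (n + 2) → M) = Fin.append p ![x, y] := by
  funext i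
  refine Fin.addCases (m := n) (n := 2) (fun i => ?_) (fun i => ?_) i
  · rw [Fin.append_left]
    have h : (Fin.castAdd 2 i) = u2 i := rfl
    rw [h, BStr.snoc_u1, BStr.snoc_u1]
  · rw [Fin.append_right]
    fin_cases i
    · exact (BStr.snoc_u1 (Fin.snoc p x : Fin (n + 1) → M) (Fin.last n) y).trans
        (BStr.snoc_last p x)
    · exact BStr.snoc_last (Fin.snoc p x : Fin (n + 1) → M) y

theorem snoc_comp_castSucc {n : ℕ} (p : Fin n → M) (x : M) :
    (Fin.snoc p x : Fin (n + 1) → M) ∘ Fin.castSucc = p := by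
  funext i
  exact BStr.snoc_u1 p i x

/-- a parametrised class -/
def cls (E : M → M → Prop) {n : ℕ} (φ : LSet.Formula (Fin (n + 1))) (p : Fin n → M) : Set M :=
  fun x => @FirstOrder.Language.Formula.Realize LSet M (epsStr E) _ φ (Fin.snoc p x)

/-- a parametrised relation -/
def cls₂ (E : M → M → Prop) {n : ℕ} (φ : LSet.Formula (Fin (n + 2))) (p : Fin n → M) :
    Set (M × M) :=
  fun z => @FirstOrder.Language.Formula.Realize LSet M (epsStr E) _ φ
    (Fin.snoc (Fin.snoc p z.1 : Fin (n + 1) → M) z.2)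

theorem definable_cls {n : ℕ} (φ : LSet.Formula (Fin (n + 1))) (p : Fin n → M) :
    @Set.Definable₁ M Set.univ LSet (epsStr E) (cls E φ p) := by
  have h := definable_param (E := E) φ p
  have h1 : {x : Fin 1 → M | x 0 ∈ cls E φ p} =
      {x | @FirstOrder.Language.Formula.Realize LSet M (epsStr E) (Fin (n + 1)) φ
        (Fin.append p x)} := by
    ext x
    change @FirstOrder.Language.Formula.Realize LSet M (epsStr E) _ φ (Fin.snoc p (x 0)) ↔
      @FirstOrder.Language.Formula.Realize LSet M (epsStr E) _ φ (Fin.append p x)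
    rw [snoc_eq_append]
    have h2 : (fun _ => x 0) = x := funext fun i => by rw [Fin.fin_one_eq_zero i]
    rw [h2]
  rw [← h1] at h
  exact h

theorem definable_cls₂ {n : ℕ} (φ : LSet.Formula (Fin (n + 2))) (p : Fin n → M) :
    @Set.Definable₂ M Set.univ LSet (epsStr E) (cls₂ E φ p) := by
  have h := definable_param (E := E) φ p
  have h1 : {x : Fin 2 → M | (x 0, x 1) ∈ cls₂ E φ p} =
      {x | @FirstOrder.Language.Formula.Realize LSet M (epsStr E) (Fin (n + 2)) φ
        (Fin.append p x)} := by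
    ext x
    change @FirstOrder.Language.Formula.Realize LSet M (epsStr E) _ φ
      (Fin.snoc (Fin.snoc p (x 0) : Fin (n + 1) → M) (x 1)) ↔
      @FirstOrder.Language.Formula.Realize LSet M (epsStr E) _ φ (Fin.append p x)
    rw [snoc_snoc_eq_append]
    have h2 : ![x 0, x 1] = x := by
      funext i
      fin_cases i <;> rfl
    rw [h2]
  rw [← h1] at h
  exact h

theorem sat_axSep_iff (n : ℕ) (φ : LSet.Formula (Fin (n + 1))) :
    Sat E (axSep n φ) ↔ ∀ (p : Fin n → M) (a : M), ∃ b, ∀ x, E x b ↔ E x a ∧ x ∈ cls E φ p := by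
  unfold axSep
  rw [sat_alls]
  refine forall_congr' fun p => ?_
  simp only [BStr.bval_fAll, BStr.bval_fEx, BStr.bval_iff, BStr.bval_inf, BStr.bval_fMem,
    BStr.snoc_last, BStr.snoc_u1, iInf_Prop_eq, iSup_Prop_eq, bihimp_iff_iff, inf_Prop_eq,
    bval_fSub_iff, comp_snoc', comp_u1, snoc_comp_castSucc, relStr_mem]
  exact Iff.rfl

theorem sat_axRepl_iff (n : ℕ) (φ : LSet.Formula (Fin (n + 2))) :
    Sat E (axRepl n φ) ↔ ∀ (p : Fin n → M) (a : M), (∀ x, E x a → ∃! y, (x, y) ∈ cls₂ E φ p) →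
      ∃ b, ∀ y, E y b ↔ ∃ x, E x a ∧ (x, y) ∈ cls₂ E φ p := by
  unfold axRepl
  rw [sat_alls]
  refine forall_congr' fun p => ?_
  simp only [BStr.bval_fAll, BStr.bval_fEx, BStr.bval_iff, BStr.bval_inf, BStr.bval_fMem,
    BStr.snoc_last, BStr.snoc_u1, iInf_Prop_eq, iSup_Prop_eq, bihimp_iff_iff, inf_Prop_eq,
    bval_fSub_iff, comp_snoc', comp_u1, snoc_comp_castSucc, relStr_mem, BStr.bval_imp,
    himp_iff_imp, BStr.bval_fEq, relStr_eq]
  exact Iff.rfl

theorem sat_axExt_iff : Sat E axExt ↔ ∀ x y, (∀ z, E z x ↔ E z y) → x = y := by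
  rw [sat_iff_bval]
  simp only [axExt, BStr.bval_fAll, BStr.bval_iff, BStr.bval_fMem, BStr.snoc_last, BStr.snoc_u1,
    iInf_Prop_eq, bihimp_iff_iff, relStr_mem, BStr.bval_imp, himp_iff_imp, BStr.bval_fEq,
    relStr_eq]

theorem sat_axFound_iff : Sat E axFound ↔
    ∀ x, (∃ y, E y x) → ∃ y, E y x ∧ ∀ z, E z x → ¬ E z y := by
  rw [sat_iff_bval]
  simp only [axFound, BStr.bval_fAll, BStr.bval_fEx, BStr.bval_inf, BStr.bval_fMem,
    BStr.snoc_last, BStr.snoc_u1, iInf_Prop_eq, iSup_Prop_eq, inf_Prop_eq, relStr_mem,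
    BStr.bval_imp, himp_iff_imp, BStr.bval_not, compl_iff_not]

theorem sat_axPair_iff : Sat E axPair ↔ ∀ x y, ∃ z, ∀ w, E w z ↔ w = x ∨ w = y := by
  rw [sat_iff_bval]
  simp only [axPair, BStr.bval_fAll, BStr.bval_fEx, BStr.bval_fPair, BStr.snoc_last,
    BStr.snoc_u1, BStr.bPair, iInf_Prop_eq, iSup_Prop_eq, bihimp_iff_iff, sup_Prop_eq,
    relStr_mem, relStr_eq]

theorem sat_axUnion_iff : Sat E axUnion ↔ ∀ x, ∃ u, ∀ w, E w u ↔ ∃ y, E y x ∧ E w y := by
  rw [sat_iff_bval]
  simp only [axUnion, BStr.bval_fAll, BStr.bval_fEx, BStr.bval_iff, BStr.bval_inf,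
    BStr.bval_fMem, BStr.snoc_last, BStr.snoc_u1, iInf_Prop_eq, iSup_Prop_eq, bihimp_iff_iff,
    inf_Prop_eq, relStr_mem]

theorem sat_axPower_iff : Sat E axPower ↔ ∀ x, ∃ p, ∀ w, E w p ↔ ∀ z, E z w → E z x := by
  rw [sat_iff_bval]
  simp only [axPower, BStr.bval_fAll, BStr.bval_fEx, BStr.bval_iff, BStr.bval_fSubset,
    BStr.bval_fMem, BStr.snoc_last, BStr.snoc_u1, iInf_Prop_eq, iSup_Prop_eq, bihimp_iff_iff,
    BStr.bSubset, relStr_mem, himp_iff_imp]

theorem sat_axInfinity_iff : Sat E axInfinity ↔ ∃ I, (∃ e, E e I ∧ ∀ z, ¬ E z e) ∧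
    ∀ x, E x I → ∃ s, E s I ∧ ∀ w, E w s ↔ E w x ∨ w = x := by
  rw [sat_iff_bval]
  simp only [axInfinity, BStr.bval_fEx, BStr.bval_fInductive, BStr.snoc_last, iSup_Prop_eq,
    rel_inductive]
  exact Iff.rfl

theorem sat_axChoice_iff : Sat E axChoice ↔ ∀ a, (∀ x, E x a → ∃ y, E y x) →
    (∀ x y, E x a → E y a → ∀ z, E z x → E z y → x = y) →
    ∃ c, ∀ x, E x a → ∃! y, E y x ∧ E y c := by
  rw [sat_iff_bval]
  simp only [axChoice, BStr.bval_fAll, BStr.bval_fEx, BStr.bval_inf,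
    BStr.bval_fMem, BStr.snoc_last, BStr.snoc_u1, iInf_Prop_eq, iSup_Prop_eq,
    inf_Prop_eq, relStr_mem, BStr.bval_imp, himp_iff_imp, BStr.bval_fEq, relStr_eq]
  constructor
  · intro h a h1 h2
    exact h a ⟨h1, fun x y z hz => h2 x y hz.1.1.1 hz.1.1.2 z hz.1.2 hz.2⟩
  · rintro h a ⟨h1, h2⟩
    exact h a h1 fun x y hx hy z hz hz' => h2 x y z ⟨⟨⟨hx, hy⟩, hz⟩, hz'⟩

theorem exists_param {k : ℕ} {D : Set (Fin k → M)}
    (h : @Set.Definable M Set.univ LSet (epsStr E) (Fin k) D) :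
    ∃ (n : ℕ) (φ : LSet.Formula (Fin (n + k))) (p : Fin n → M), ∀ x, x ∈ D ↔
      @FirstOrder.Language.Formula.Realize LSet M (epsStr E) (Fin (n + k)) φ (Fin.append p x) := by
  let _ := epsStr E
  rw [Set.definable_iff_finitely_definable] at h
  obtain ⟨A, -, h⟩ := h
  rw [Set.definable_iff_exists_formula_sum] at h
  obtain ⟨φ, rfl⟩ := h
  have e : ((A : Set M) : Type u) ≃ Fin A.card := A.equivFin
  refine ⟨A.card, φ.relabel (Sum.elim (fun a => Fin.castAdd k (e a)) (fun j => Fin.natAdd _ j)),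
    fun i => (e.symm i).1, fun x => ?_⟩
  refine Iff.symm (FirstOrder.Language.Formula.realize_relabel.trans (iff_of_eq ?_))
  change _ = FirstOrder.Language.Formula.Realize φ (Sum.elim (↑) x)
  congr 1
  funext i
  cases i with
  | inl a => simp
  | inr j => simp

/-- Satisfaction of the theory ZFC is the same as being a model of ZFC. -/
theorem sat_ZFC_iff : (∀ ψ ∈ ZFC, Sat E ψ) ↔ ZFCModel E := by
  constructor
  · intro h
    have h0 : ∀ ψ ∈ ({axExt, axFound, axPair, axUnion, axPower, axInfinity, axChoice} :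
        Set LSet.Sentence), Sat E ψ := fun ψ hψ => h ψ (Or.inl (Or.inl hψ))
    simp only [Set.mem_insert_iff, Set.mem_singleton_iff, forall_eq_or_imp, forall_eq,
      sat_axExt_iff, sat_axFound_iff, sat_axPair_iff, sat_axUnion_iff, sat_axPower_iff,
      sat_axInfinity_iff, sat_axChoice_iff] at h0
    obtain ⟨h1, h2, h3, h4, h5, h6, h7⟩ := h0
    refine ⟨⟨h6.choose⟩, h1, h2, h3, h4, h5, h6, ?_, ?_, h7⟩
    · intro D hD a
      obtain ⟨n, φ, p, hp⟩ := exists_param (D := {x : Fin 1 → M | x 0 ∈ D}) hD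
      obtain ⟨b, hb⟩ := (sat_axSep_iff n φ).1 (h _ (Or.inl (Or.inr ⟨n, φ, rfl⟩))) p a
      refine ⟨b, fun x => (hb x).trans (and_congr_right fun _ => ?_)⟩
      refine Iff.trans ?_ (hp fun _ => x).symm
      rw [← snoc_eq_append]
      exact Iff.rfl
    · intro R hR a ha
      obtain ⟨n, φ, p, hp⟩ := exists_param (D := {x : Fin 2 → M | (x 0, x 1) ∈ R}) hR
      have hp' : ∀ x y, (x, y) ∈ R ↔ (x, y) ∈ cls₂ E φ p := by
        intro x y
        refine (hp ![x, y]).trans ?_
        rw [← snoc_snoc_eq_append]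
        exact Iff.rfl
      simp only [hp'] at ha ⊢
      exact (sat_axRepl_iff n φ).1 (h _ (Or.inr ⟨n, φ, rfl⟩)) p a ha
  · intro h ψ hψ
    rcases hψ with (hψ | ⟨n, φ, rfl⟩) | ⟨n, φ, rfl⟩
    · simp only [Set.mem_insert_iff, Set.mem_singleton_iff] at hψ
      rcases hψ with rfl | rfl | rfl | rfl | rfl | rfl | rfl
      · exact sat_axExt_iff.2 h.ext
      · exact sat_axFound_iff.2 h.found
      · exact sat_axPair_iff.2 h.pair
      · exact sat_axUnion_iff.2 h.union
      · exact sat_axPower_iff.2 h.power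
      · exact sat_axInfinity_iff.2 h.infinity
      · exact sat_axChoice_iff.2 h.choice
    · exact (sat_axSep_iff n φ).2 fun p a => h.separation (cls E φ p) (definable_cls φ p) a
    · exact (sat_axRepl_iff n φ).2 fun p a ha =>
        h.replacement (cls₂ E φ p) (definable_cls₂ φ p) a ha

/-- The models of the theory ZFC are the models of ZFC. -/
theorem model_ZFC_iff : @FirstOrder.Language.Theory.Model LSet M (epsStr E) ZFC ↔ ZFCModel E := by
  rw [← sat_ZFC_iff]
  constructor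
  · intro h ψ hψ
    exact h.realize_of_mem ψ hψ
  · intro h
    exact @FirstOrder.Language.Theory.Model.mk LSet M (epsStr E) ZFC h

/-- Models of ZFC are models of the theory ZFC. -/
theorem ZFCModel.model (h : ZFCModel E) : @FirstOrder.Language.Theory.Model LSet M (epsStr E) ZFC :=
  model_ZFC_iff.2 h

end Pool.Agent.H.MP_8ff4bd_gt.M3
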