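import Mathlib

/-!
The pro-countable topology.
-/

set_option autoImplicit false

namespace Pool.Agent.H.MP_8ff4bd_gt.M3

universe u

/-- The pro-countable topology on an abelian group: a set `U` is open if for every `x` in `U` there
is a subgroup `L` of countable index with `x + L ⊆ U`. -/
@[instance_reducible] def proCountable (A : Type u) [AddCommGroup A] : TopologicalSpace A where
  IsOpen U := ∀ x ∈ U, ∃ L : AddSubgroup A, Countable (A ⧸ L) ∧ ∀ y ∈ L, x + y ∈ U
  isOpen_univ := fun _ _ => ⟨⊤, inferInstance, fun _ _ => trivial⟩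
  isOpen_inter := fun U V hU hV x hx => by
    obtain ⟨L, hL, hLU⟩ := hU x hx.1
    obtain ⟨K, hK, hKV⟩ := hV x hx.2
    refine ⟨L ⊓ K, ?_, fun y hy => ⟨hLU y hy.1, hKV y hy.2⟩⟩
    have hinj : Function.Injective (fun q : A ⧸ (L ⊓ K) =>
        (((q.out : A) : A ⧸ L), ((q.out : A) : A ⧸ K))) := by
      intro p q hpq
      rw [Prod.mk.injEq, QuotientAddGroup.eq, QuotientAddGroup.eq] at hpq
      rw [← QuotientAddGroup.out_eq' p, ← QuotientAddGroup.out_eq' q]
      exact QuotientAddGroup.eq.2 ⟨hpq.1, hpq.2⟩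
    exact hinj.countable
  isOpen_sUnion := fun S hS x ⟨U, hU, hx⟩ => by
    obtain ⟨L, hL, hLU⟩ := hS U hU x hx
    exact ⟨L, hL, fun y hy => ⟨U, hU, hLU y hy⟩⟩

end Pool.Agent.H.MP_8ff4bd_gt.M3
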