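import Pool.Agent.H.MP_8ff4bd_gt.M3.SO
import Pool.Agent.H.MP_8ff4bd_gt.M3.S.TopDef

/-!
The two-valued case of the second-order form of the homeomorphism statement.
-/

set_option autoImplicit false

namespace Pool.Agent.H.MP_8ff4bd_gt.M3

section

variable {A : Type} [AddCommGroup A]

/-- a subset containing zero and closed under addition of a torsion group is a subgroup -/
def toSubgroup (hA : ∀ x : A, ∃ n : ℕ, 0 < n ∧ n • x = 0) (l : A → Prop) (hl : _root_.M3.bSub l) :
    AddSubgroup A where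
  carrier := {x | l x}
  zero_mem' := hl.1
  add_mem' := fun {x y} hx hy => by
    have h := hl.2
    simp only [iInf_Prop_eq, himp_iff_imp] at h
    exact h x y ⟨hx, hy⟩
  neg_mem' := fun {x} hx => by
    have hadd : ∀ x y, l x → l y → l (x + y) := by
      have h := hl.2
      simp only [iInf_Prop_eq, himp_iff_imp] at h
      exact fun x y hx hy => h x y ⟨hx, hy⟩
    have hx : l x := hx
    have hmul : ∀ n : ℕ, l (n • x) := by
      intro n
      induction n with
      | zero => rw [zero_smul]; exact hl.1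
      | succ n ih => rw [succ_nsmul]; exact hadd _ _ ih hx
    obtain ⟨n, hn, hnx⟩ := hA x
    obtain ⟨m, rfl⟩ := Nat.exists_eq_succ_of_ne_zero hn.ne'
    have h1 : -x = m • x := by
      rw [Nat.succ_eq_add_one, succ_nsmul] at hnx
      rw [neg_eq_iff_add_eq_zero, add_comm]
      exact hnx
    change l (-x)
    rw [h1]
    exact hmul m

theorem bSub_of_subgroup (L : AddSubgroup A) : _root_.M3.bSub (fun x => x ∈ L) := by
  refine ⟨L.zero_mem, ?_⟩
  simp only [iInf_Prop_eq, himp_iff_imp]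
  exact fun x y h => L.add_mem h.1 h.2

theorem bIdx_iff (L : AddSubgroup A) :
    _root_.M3.bIdx (fun x => x ∈ L) ↔ Countable (A ⧸ L) := by
  have h0 : _root_.M3.bIdx (fun x => x ∈ L) ↔ ∃ r : A → ℕ → Prop, (∀ x, ∃ n, r x n) ∧
      ∀ x y n, r x n ∧ r y n → x - y ∈ L := by
    simp only [_root_.M3.bIdx, iInf_Prop_eq, iSup_Prop_eq, inf_Prop_eq, himp_iff_imp]
  rw [h0]
  constructor
  · rintro ⟨r, hr, hr'⟩
    choose f hf using hr
    have hinj : Function.Injective (fun q : A ⧸ L => f q.out) := by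
      intro p q hpq
      have hpq : f p.out = f q.out := hpq
      have h0 := hf p.out
      rw [hpq] at h0
      have h1 := hr' _ _ _ ⟨hf q.out, h0⟩
      rw [← QuotientAddGroup.out_eq' p, ← QuotientAddGroup.out_eq' q]
      refine QuotientAddGroup.eq.2 ?_
      rw [neg_add_eq_sub]
      exact h1
    exact hinj.countable
  · intro h
    obtain ⟨f, hf⟩ := exists_injective_nat (A ⧸ L)
    refine ⟨fun x n => f (x : A ⧸ L) = n, fun x => ⟨_, rfl⟩, ?_⟩
    rintro x y n ⟨hx, hy⟩
    have h1 : (y : A ⧸ L) = (x : A ⧸ L) := hf (hy.trans hx.symm)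
    rw [QuotientAddGroup.eq, neg_add_eq_sub] at h1
    exact h1

end

section

variable {G H : Type} [AddCommGroup G] [AddCommGroup H]

theorem bCont_iff (hG : ∀ x : G, ∃ n : ℕ, 0 < n ∧ n • x = 0)
    (hH : ∀ x : H, ∃ n : ℕ, 0 < n ∧ n • x = 0) (f : G → H) :
    _root_.M3.bCont (fun x y => f x = y) ↔
      @Continuous G H (proCountable G) (proCountable H) f := by
  have h0 : _root_.M3.bCont (fun x y => f x = y) ↔ ∀ x y, f x = y → ∀ lam : H → Prop,
      _root_.M3.bSub lam ∧ _root_.M3.bIdx lam → ∃ kap : G → Prop,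
        (_root_.M3.bSub kap ∧ _root_.M3.bIdx kap) ∧
          ∀ z w, kap z ∧ f (x + z) = w → lam (w - y) := by
    simp only [_root_.M3.bCont, iInf_Prop_eq, iSup_Prop_eq, inf_Prop_eq, himp_iff_imp]
  rw [h0]
  constructor
  · intro h
    refine @Continuous.mk _ _ (proCountable G) (proCountable H) _ ?_
    intro U hU x hx
    obtain ⟨L, hL, hLU⟩ := hU (f x) hx
    obtain ⟨kap, ⟨hk, hk'⟩, hkl⟩ := h x _ rfl (fun y => y ∈ L)
      ⟨bSub_of_subgroup L, (bIdx_iff L).2 hL⟩
    refine ⟨toSubgroup hG kap hk, (bIdx_iff _).1 hk', fun z hz => ?_⟩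
    have h1 := hLU _ (hkl z _ ⟨hz, rfl⟩)
    rw [add_sub_cancel] at h1
    exact h1
  · rintro h x y rfl lam ⟨hl, hl'⟩
    have hU : @IsOpen H (proCountable H) {y | lam (y - f x)} := by
      intro y hy
      refine ⟨toSubgroup hH lam hl, (bIdx_iff _).1 hl', fun z hz => ?_⟩
      have h1 : y + z - f x = (y - f x) + z := by abel
      change lam (y + z - f x)
      rw [h1]
      exact (toSubgroup hH lam hl).add_mem hy hz
    have h2 := @Continuous.isOpen_preimage _ _ (proCountable G) (proCountable H) _ h _ hU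
    have h3 : lam (f x - f x) := by rw [sub_self]; exact hl.1
    obtain ⟨K, hK, hKU⟩ := h2 x h3
    refine ⟨fun z => z ∈ K, ⟨bSub_of_subgroup K, (bIdx_iff K).2 hK⟩, ?_⟩
    rintro z w ⟨hz, rfl⟩
    exact hKU z hz

/-- The second-order statement for the two-element algebra. -/
theorem bHomeo_prop_iff (hG : ∀ x : G, ∃ n : ℕ, 0 < n ∧ n • x = 0)
    (hH : ∀ x : H, ∃ n : ℕ, 0 < n ∧ n • x = 0) :
    _root_.M3.bHomeo Prop G H ↔
      Nonempty (@Homeomorph G H (proCountable G) (proCountable H)) := by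
  have h0 : ∀ F : G → H → Prop, _root_.M3.bBij F ↔ ((∀ x, ∃ y, F x y) ∧
      (∀ x y y', y ≠ y' → ¬ (F x y ∧ F x y'))) ∧
      ((∀ y, ∃ x, F x y) ∧ (∀ y x x', x ≠ x' → ¬ (F x y ∧ F x' y))) := by
    intro F
    simp only [_root_.M3.bBij, iInf_Prop_eq, iSup_Prop_eq, inf_Prop_eq, compl_iff_not]
  have h1 : _root_.M3.bHomeo Prop G H ↔ ∃ F : G → H → Prop,
      (_root_.M3.bBij F ∧ _root_.M3.bCont F) ∧ _root_.M3.bCont (fun y x => F x y) := by
    simp only [_root_.M3.bHomeo, iSup_Prop_eq, inf_Prop_eq]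
  rw [h1]
  constructor
  · rintro ⟨F, ⟨hF, hc⟩, hc'⟩
    rw [h0] at hF
    obtain ⟨⟨ht, hs⟩, hso, hi⟩ := hF
    choose f hf using ht
    choose g hg using hso
    have hFf : F = fun x y => f x = y := by
      funext x y
      refine propext ⟨fun h => ?_, fun h => h ▸ hf x⟩
      by_contra hne
      exact hs x _ _ hne ⟨hf x, h⟩
    have hgf : ∀ x, g (f x) = x := by
      intro x
      by_contra hne
      exact hi (f x) _ _ hne ⟨hg (f x), hf x⟩
    have hfg : ∀ y, f (g y) = y := by
      intro y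
      by_contra hne
      exact hs (g y) _ _ hne ⟨hf (g y), hg y⟩
    have hFg : (fun y x => F x y) = fun y x => g y = x := by
      funext y x
      rw [hFf]
      refine propext ⟨fun h => ?_, fun h => ?_⟩
      · rw [← h]; exact hgf x
      · rw [← h]; exact hfg y
    rw [hFg] at hc'
    rw [hFf] at hc
    exact ⟨@Homeomorph.mk _ _ (proCountable G) (proCountable H) ⟨f, g, hgf, hfg⟩
      ((bCont_iff hG hH f).1 hc) ((bCont_iff hH hG g).1 hc')⟩
  · rintro ⟨e⟩
    let _ := proCountable G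
    let _ := proCountable H
    refine ⟨fun x y => e x = y, ⟨?_, (bCont_iff hG hH e).2 e.continuous⟩, ?_⟩
    · rw [h0]
      refine ⟨⟨fun x => ⟨_, rfl⟩, ?_⟩, fun y => ⟨e.symm y, e.apply_symm_apply y⟩, ?_⟩
      · rintro x y y' hne ⟨rfl, rfl⟩
        exact hne rfl
      · rintro y x x' hne ⟨h, h'⟩
        exact hne (e.injective (h.trans h'.symm))
    · have h2 : (fun y x => e x = y) = fun y x => e.symm y = x := by
        funext y x
        refine propext ⟨fun h => ?_, fun h => ?_⟩
        · rw [← h]; exact e.symm_apply_apply x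
        · rw [← h]; exact e.apply_symm_apply y
      rw [h2]
      exact (bCont_iff hH hG e.symm).2 e.symm.continuous

theorem torsion_finsupp (W : Type) (m : ℕ) (hm : 0 < m) (x : W →₀ ZMod m) :
    ∃ n : ℕ, 0 < n ∧ n • x = 0 := by
  refine ⟨m, hm, ?_⟩
  ext t
  simp

/-- The case of the two groups of the problem. -/
theorem bHomeo_prop_W1 : _root_.M3.bHomeo Prop (_root_.M3.W1 →₀ ZMod 2) (_root_.M3.W1 →₀ ZMod 3) ↔
    Nonempty (@Homeomorph (_root_.M3.W1 →₀ ZMod 2) (_root_.M3.W1 →₀ ZMod 3)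
      (proCountable _) (proCountable _)) :=
  bHomeo_prop_iff (torsion_finsupp _ 2 (by norm_num)) (torsion_finsupp _ 3 (by norm_num))

end

end Pool.Agent.H.MP_8ff4bd_gt.M3
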