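import Pool.Agent.H.MP_8ff4bd_gt.M3.S.BVal

/-!
Ultrafilters on complete Boolean algebras and the quotient of a B-valued structure.
-/

set_option autoImplicit false

namespace Pool.Agent.H.MP_8ff4bd_gt.M3

open scoped symmDiff

universe u v

/-- An ultrafilter on a Boolean algebra. -/
structure BUlt (B : Type u) [BooleanAlgebra B] where
  /-- the set of large elements -/
  carrier : Set B
  bot_notMem : ⊥ ∉ carrier
  inf_mem : ∀ a b, a ∈ carrier → b ∈ carrier → a ⊓ b ∈ carrier
  mono : ∀ a b, a ≤ b → a ∈ carrier → b ∈ carrier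
  mem_or : ∀ a, a ∈ carrier ∨ aᶜ ∈ carrier

/-- Every nonzero element belongs to some ultrafilter. -/
theorem exists_ult {B : Type u} [BooleanAlgebra B] (b : B) (hb : b ≠ ⊥) :
    ∃ U : BUlt B, b ∈ U.carrier := by
  obtain ⟨J, hJ, -, hd⟩ := DistribLattice.prime_ideal_of_disjoint_filter_ideal
    (F := Order.PFilter.principal b) (I := Order.Ideal.principal (⊥ : B)) (by
      rw [Set.disjoint_left]
      intro x hx hx'
      have h1 : b ≤ x := Order.PFilter.mem_principal.1 hx
      have h2 : x ≤ ⊥ := Order.Ideal.mem_principal.1 hx'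
      exact hb (le_bot_iff.1 (h1.trans h2)))
  refine ⟨⟨{x | x ∉ J}, ?_, ?_, ?_, ?_⟩, ?_⟩
  · intro h
    exact h (Order.Ideal.bot_mem J)
  · intro x y hx hy hxy
    rcases hJ.mem_or_mem hxy with h | h
    · exact hx h
    · exact hy h
  · intro x y hxy hx hy
    exact hx (J.lower hxy hy)
  · intro x
    by_contra hcon
    simp only [Set.mem_ofPred_eq, not_or, not_not] at hcon
    have h1 : x ⊔ xᶜ ∈ J := Order.Ideal.sup_mem hcon.1 hcon.2
    rw [sup_compl_eq_top] at h1
    exact Set.disjoint_left.1 hd (Order.PFilter.mem_principal.2 le_top) h1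
  · exact fun h => Set.disjoint_left.1 hd (Order.PFilter.mem_principal.2 le_rfl) h

namespace BUlt

variable {B : Type u} [BooleanAlgebra B] (U : BUlt B)

theorem top_mem : (⊤ : B) ∈ U.carrier := by
  rcases U.mem_or ⊤ with h | h
  · exact h
  · rw [compl_top] at h
    exact absurd h U.bot_notMem

theorem inf_iff (a b : B) : a ⊓ b ∈ U.carrier ↔ a ∈ U.carrier ∧ b ∈ U.carrier :=
  ⟨fun h => ⟨U.mono _ _ inf_le_left h, U.mono _ _ inf_le_right h⟩,
    fun h => U.inf_mem _ _ h.1 h.2⟩

theorem compl_iff (a : B) : aᶜ ∈ U.carrier ↔ a ∉ U.carrier := by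
  constructor
  · intro h1 h2
    have h3 := U.inf_mem _ _ h2 h1
    rw [inf_compl_eq_bot] at h3
    exact U.bot_notMem h3
  · intro h
    exact (U.mem_or a).resolve_left h

theorem sup_iff (a b : B) : a ⊔ b ∈ U.carrier ↔ a ∈ U.carrier ∨ b ∈ U.carrier := by
  constructor
  · intro h
    by_contra hcon
    rw [not_or] at hcon
    have h1 := U.inf_mem _ _ ((U.compl_iff a).2 hcon.1) ((U.compl_iff b).2 hcon.2)
    rw [← compl_sup] at h1
    exact (U.compl_iff _).1 h1 h
  · rintro (h | h)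
    · exact U.mono _ _ le_sup_left h
    · exact U.mono _ _ le_sup_right h

theorem himp_iff (a b : B) : (a ⇨ b) ∈ U.carrier ↔ (a ∈ U.carrier → b ∈ U.carrier) := by
  rw [himp_eq, U.sup_iff, U.compl_iff]
  tauto

theorem bihimp_iff (a b : B) : (a ⇔ b) ∈ U.carrier ↔ (a ∈ U.carrier ↔ b ∈ U.carrier) := by
  rw [bihimp, U.inf_iff, U.himp_iff, U.himp_iff]
  tauto

end BUlt

namespace BStr

variable {B : Type u} [CompleteBooleanAlgebra B] {V : Type v} (S : BStr B V) (U : BUlt B)

/-- equality modulo the ultrafilter -/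
def setoid : Setoid V where
  r x y := S.eq x y ∈ U.carrier
  iseqv := by
    refine ⟨fun x => ?_, fun {x y} h => ?_, fun {x y z} h h' => ?_⟩
    · rw [S.eq_refl]
      exact U.top_mem
    · rwa [S.eq_symm]
    · exact U.mono _ _ (S.eq_trans x y z) (U.inf_mem _ _ h h')

/-- the two-valued quotient -/
def Quo : Type v := Quotient (S.setoid U)

/-- the class of a name -/
def qmk (x : V) : S.Quo U := Quotient.mk (S.setoid U) x

theorem qmk_surjective : Function.Surjective (S.qmk U) := fun q => Quotient.exists_rep q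

theorem qmk_eq_iff (x y : V) : S.qmk U x = S.qmk U y ↔ S.eq x y ∈ U.carrier :=
  ⟨fun h => Quotient.exact (s := S.setoid U) h, fun h => Quotient.sound (s := S.setoid U) h⟩

/-- membership in the quotient -/
def qmem : S.Quo U → S.Quo U → Prop :=
  Quotient.lift₂ (fun x y => S.mem x y ∈ U.carrier) (by
    intro x y x' y' hx hy
    apply propext
    have hx' : S.eq x x' ∈ U.carrier := hx
    have hy' : S.eq y y' ∈ U.carrier := hy
    constructor
    · intro h
      exact U.mono _ _ (S.mem_congr_right x' y y') (U.inf_mem _ _ hy'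
        (U.mono _ _ (S.mem_congr_left x x' y) (U.inf_mem _ _ hx' h)))
    · intro h
      rw [S.eq_symm] at hx' hy'
      exact U.mono _ _ (S.mem_congr_right x y' y) (U.inf_mem _ _ hy'
        (U.mono _ _ (S.mem_congr_left x' x y') (U.inf_mem _ _ hx' h))))

theorem qmem_qmk (x y : V) : S.qmem U (S.qmk U x) (S.qmk U y) ↔ S.mem x y ∈ U.carrier := Iff.rfl

variable {S}

theorem IsExt.compl {φ : V → B} (h : S.IsExt φ) : S.IsExt fun x => (φ x)ᶜ := by
  intro x y
  rw [← sdiff_eq, sdiff_le_iff, sup_comm, ← sdiff_le_iff, sdiff_compl]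
  rw [S.eq_symm]
  exact h y x

theorem BZFC.iSup_iff (hS : S.BZFC) {φ : V → B} (hφ : S.IsExt φ) :
    (⨆ x, φ x) ∈ U.carrier ↔ ∃ x, φ x ∈ U.carrier := by
  constructor
  · intro h
    obtain ⟨x, hx⟩ := hS.full φ hφ
    exact ⟨x, by rwa [hx]⟩
  · rintro ⟨x, hx⟩
    exact U.mono _ _ (le_iSup φ x) hx

theorem BZFC.iInf_iff (hS : S.BZFC) {φ : V → B} (hφ : S.IsExt φ) :
    (⨅ x, φ x) ∈ U.carrier ↔ ∀ x, φ x ∈ U.carrier := by
  constructor
  · intro h x
    exact U.mono _ _ (iInf_le φ x) h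
  · intro h
    by_contra hcon
    rw [← U.compl_iff, compl_iInf, hS.iSup_iff U hφ.compl] at hcon
    obtain ⟨x, hx⟩ := hcon
    exact (U.compl_iff _).1 hx (h x)

end BStr

end Pool.Agent.H.MP_8ff4bd_gt.M3
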